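import Pool.Agent.Helper41.Levi.Defs

/-!
# Making several integers non-squares modulo a prime
-/

namespace Pool.Agent.Helper41.Levi

open scoped NumberTheorySymbols

theorem exists_primes {ι : Type*} [Finite ι] (M : ℕ) :
    ∃ r : ι → ℕ, Function.Injective r ∧ ∀ e, (r e).Prime ∧ M < r e := by
  have hinf : {p : ℕ | p.Prime ∧ M < p}.Infinite := by
    apply Set.infinite_of_forall_exists_gt
    intro a
    obtain ⟨p, hp, hpp⟩ := Nat.exists_infinite_primes (a + M + 1)
    exact ⟨p, ⟨hpp, by omega⟩, by omega⟩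
  have := hinf.to_subtype
  refine ⟨fun e => (Infinite.natEmbedding {p : ℕ | p.Prime ∧ M < p} (Finite.equivFin ι e : ℕ)).1,
    ?_, ?_⟩
  · intro a b hab
    have h1 := (Infinite.natEmbedding {p : ℕ | p.Prime ∧ M < p}).injective (Subtype.ext hab)
    exact (Finite.equivFin ι).injective (Fin.ext h1)
  · intro e
    exact (Infinite.natEmbedding {p : ℕ | p.Prime ∧ M < p} (Finite.equivFin ι e : ℕ)).2

theorem int_crt {ι : Type*} [Finite ι] {m : ι → ℤ} (hm : Pairwise fun i j => IsCoprime (m i) (m j))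
    (x : ι → ℤ) : ∃ z : ℤ, ∀ i, m i ∣ z - x i := by
  have h : Pairwise (Function.onFun IsCoprime fun i => Ideal.span {m i}) := by
    intro i j hij
    exact (Ideal.isCoprime_span_singleton_iff _ _).2 (hm hij)
  obtain ⟨z, hz⟩ := Ideal.exists_forall_sub_mem_ideal h x
  exact ⟨z, fun i => Ideal.mem_span_singleton.1 (hz i)⟩

theorem jacobi_eq_one {m : ℤ} {p : ℕ} (hm : m ≠ 0) (h : p ≡ 1 [MOD (8 * m.natAbs)]) :
    J(m | p) = 1 := by
  have hm' : 0 < m.natAbs := Int.natAbs_pos.2 hm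
  have h2 : p % 2 = 1 := by
    have : p ≡ 1 [MOD 2] := h.of_dvd (Dvd.intro (4 * m.natAbs) (by ring))
    exact this
  have hodd : Odd p := Nat.odd_iff.2 h2
  rw [jacobiSym.mod_right m hodd]
  have h3 : p ≡ 1 [MOD (4 * m.natAbs)] := h.of_dvd (Dvd.intro 2 (by ring))
  have h4 : p % (4 * m.natAbs) = 1 := by
    have h5 : p % (4 * m.natAbs) = 1 % (4 * m.natAbs) := h3
    rw [h5]
    exact Nat.mod_eq_of_lt (by omega)
  rw [h4, jacobiSym.one_right]

theorem exists_prime_of_factored {ι : Type*} [Finite ι] (r : ι → ℕ) (m : ι → ℤ)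
    (hr : ∀ e, (r e).Prime) (hr2 : ∀ e, 2 < r e) (hinj : Function.Injective r)
    (hm : ∀ e, m e ≠ 0) (hrm : ∀ e f, ¬ ((r f : ℤ) ∣ m e)) (N : ℕ) :
    ∃ p : ℕ, p.Prime ∧ N < p ∧ ∀ e, ¬ IsSquare (((r e * m e : ℤ)) : ZMod p) := by
  classical
  have := Fintype.ofFinite ι
  -- non-residues
  have hn : ∀ e, ∃ n : ℤ, J(n | r e) = -1 := by
    intro e
    have : Fact (r e).Prime := ⟨hr e⟩
    have hchar : ringChar (ZMod (r e)) ≠ 2 := by
      rw [ZMod.ringChar_zmod_n]
      have := hr2 e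
      omega
    obtain ⟨a, ha⟩ := FiniteField.exists_nonsquare hchar
    refine ⟨(a.val : ℤ), ?_⟩
    rw [← jacobiSym.legendreSym.to_jacobiSym, legendreSym.eq_neg_one_iff]
    simpa using ha
  choose n hn using hn
  -- modulus
  set M : ℤ := 8 * ∏ e, m e with hM
  have hM0 : M ≠ 0 := by
    rw [hM]
    refine mul_ne_zero (by norm_num) (Finset.prod_ne_zero_iff.2 fun e _ => hm e)
  have hcop : ∀ e, IsCoprime M (r e : ℤ) := by
    intro e
    have hp : Prime (r e : ℤ) := Nat.prime_iff_prime_int.1 (hr e)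
    rw [isCoprime_comm]
    refine (Irreducible.coprime_iff_not_dvd hp.irreducible).2 ?_
    intro hdvd
    rw [hM] at hdvd
    rcases hp.dvd_or_dvd hdvd with h | h
    · have h' : r e ∣ 8 := by exact_mod_cast h
      have h2 : r e ∣ 2 ^ 3 := by simpa using h'
      have := (Nat.prime_dvd_prime_iff_eq (hr e) Nat.prime_two).1 ((hr e).dvd_of_dvd_pow h2)
      have := hr2 e
      omega
    · obtain ⟨f, -, hf⟩ := (Prime.dvd_finsetProd_iff hp _).1 h
      exact hrm f e hf
  have hcop2 : ∀ e f, e ≠ f → IsCoprime (r e : ℤ) (r f : ℤ) := by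
    intro e f hef
    rw [Nat.isCoprime_iff_coprime]
    exact (Nat.coprime_primes (hr e) (hr f)).2 (fun h => hef (hinj h))
  obtain ⟨a, ha⟩ := int_crt (ι := Option ι) (m := fun o => o.elim M (fun e => (r e : ℤ)))
    (by
      rintro (_ | e) (_ | f) hef
      · exact absurd rfl hef
      · exact hcop f
      · exact (hcop e).symm
      · exact hcop2 e f (fun h => hef (by rw [h])))
    (fun o => o.elim 1 (fun e => n e))
  have ha0 : M ∣ a - 1 := ha none
  have hae : ∀ e, (r e : ℤ) ∣ a - n e := fun e => ha (some e)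
  set Q : ℕ := M.natAbs * ∏ e, r e with hQ
  have hQ0 : Q ≠ 0 := by
    rw [hQ]
    exact mul_ne_zero (Int.natAbs_ne_zero.2 hM0)
      (Finset.prod_ne_zero_iff.2 fun e _ => (hr e).ne_zero)
  have : NeZero Q := ⟨hQ0⟩
  have hunit : IsUnit (a : ZMod Q) := by
    rw [ZMod.coe_int_isUnit_iff_isCoprime]
    have h1 : IsCoprime M a := by
      obtain ⟨k, hk⟩ := ha0
      exact ⟨-k, 1, by linear_combination hk⟩
    have h2 : ∀ e, IsCoprime (r e : ℤ) a := by
      intro e
      have hp : Prime (r e : ℤ) := Nat.prime_iff_prime_int.1 (hr e)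
      refine (Irreducible.coprime_iff_not_dvd hp.irreducible).2 ?_
      intro hdvd
      have h3 : (r e : ℤ) ∣ n e := by
        have := dvd_sub hdvd (hae e)
        simpa using this
      have h4 : J(n e | r e) = 0 := by
        rw [← jacobiSym.zero_left (hr e).one_lt]
        apply jacobiSym.mod_left'
        rw [Int.emod_eq_zero_of_dvd h3, Int.zero_emod]
      rw [hn e] at h4
      norm_num at h4
    rw [hQ, Nat.cast_mul]
    refine IsCoprime.mul_left ?_ ?_
    · rw [Int.natCast_natAbs]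
      rcases abs_choice M with h | h <;> rw [h]
      · exact h1
      · exact h1.neg_left
    · rw [Nat.cast_prod]
      exact IsCoprime.prod_left fun e _ => h2 e
  obtain ⟨p, hpN, hpp, hpa⟩ := Nat.forall_exists_prime_gt_and_eq_mod hunit N
  have hpa' : (Q : ℤ) ∣ p - a := by
    have h1 : ((p : ℤ) : ZMod Q) = (a : ZMod Q) := by simpa using hpa
    exact (ZMod.intCast_eq_intCast_iff_dvd_sub _ _ _).1 h1.symm
  refine ⟨p, hpp, hpN, ?_⟩
  intro e
  apply ZMod.nonsquare_of_jacobiSym_eq_neg_one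
  rw [jacobiSym.mul_left]
  have hMp : M ∣ p - 1 := by
    have h1 : M ∣ p - a := by
      refine dvd_trans ?_ hpa'
      rw [hQ]
      push_cast
      exact Dvd.dvd.mul_right ((dvd_abs _ _).2 (dvd_refl _)) _
    have := dvd_add h1 ha0
    simpa using this
  have hp1 : J(m e | p) = 1 := by
    apply jacobi_eq_one (hm e)
    have h1 : (8 * m e) ∣ M := by
      rw [hM]
      exact mul_dvd_mul_left 8 (Finset.dvd_prod_of_mem m (Finset.mem_univ e))
    have h2 : ((8 * (m e).natAbs : ℕ) : ℤ) ∣ (p : ℤ) - 1 := by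
      push_cast
      refine dvd_trans ?_ (dvd_trans h1 hMp)
      exact mul_dvd_mul_left 8 ((abs_dvd _ _).2 (dvd_refl _))
    exact ((Nat.modEq_iff_dvd).2 (by exact_mod_cast h2)).symm
  have hp4 : p % 4 = 1 := by
    have h1 : (4 : ℤ) ∣ M := by
      rw [hM]
      exact Dvd.intro (2 * ∏ e, m e) (by ring)
    have h2 := dvd_trans h1 hMp
    omega
  have hre : Odd (r e) := (hr e).odd_of_ne_two (by have := hr2 e; omega)
  rw [hp1, mul_one, jacobiSym.quadratic_reciprocity_one_mod_four' hre hp4]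
  have h3 : (r e : ℤ) ∣ p - n e := by
    have h1 : (r e : ℤ) ∣ p - a := by
      refine dvd_trans ?_ hpa'
      rw [hQ]
      push_cast
      exact Dvd.dvd.mul_left (Finset.dvd_prod_of_mem (fun e => (r e : ℤ)) (Finset.mem_univ e)) _
    have := dvd_add h1 (hae e)
    simpa using this
  rw [← hn e]
  apply jacobiSym.mod_left'
  exact Int.ModEq.symm ((Int.modEq_iff_dvd).2 h3)

theorem exists_vector {ι κ : Type*} [Finite ι] (q : ι → (κ → ℤ) → ℤ)
    (hcong : ∀ e (x y : κ → ℤ) (M : ℤ), (∀ k, M ∣ x k - y k) → M ∣ q e x - q e y)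
    (v w : ι → κ → ℤ) (b d : ι → ℤ) (hb : ∀ e, b e ≠ 0)
    (hexp : ∀ e (s : ℤ), q e (fun k => v e k + s * w e k) = s * b e + s ^ 2 * d e)
    (hne : ∀ e f, f ≠ e → q f (v e) ≠ 0) :
    ∃ x : κ → ℤ, ∀ N : ℕ, ∃ p : ℕ, p.Prime ∧ N < p ∧
      ∀ e, ¬ IsSquare ((q e x : ℤ) : ZMod p) := by
  classical
  have := Fintype.ofFinite ι
  set M : ℕ := 2 + ∑ e, (b e).natAbs + ∑ e, ∑ f, (q f (v e)).natAbs with hM
  obtain ⟨r, hinj, hr⟩ := exists_primes (ι := ι) M
  have hsmall : ∀ e (t : ℤ), t ≠ 0 → t.natAbs ≤ M → ¬ ((r e : ℤ) ∣ t) := by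
    intro e t ht0 ht hdvd
    have h1 : r e ≤ t.natAbs := Nat.le_of_dvd (Int.natAbs_pos.2 ht0) (Int.natCast_dvd.1 hdvd)
    have := (hr e).2
    omega
  have hrb : ∀ e, ¬ ((r e : ℤ) ∣ b e) := by
    intro e
    apply hsmall e _ (hb e)
    have : (b e).natAbs ≤ ∑ e, (b e).natAbs :=
      Finset.single_le_sum (f := fun e => (b e).natAbs) (fun _ _ => Nat.zero_le _)
        (Finset.mem_univ e)
    omega
  have hrq : ∀ e f, f ≠ e → ¬ ((r e : ℤ) ∣ q f (v e)) := by
    intro e f hfe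
    apply hsmall e _ (hne e f hfe)
    have h1 : (q f (v e)).natAbs ≤ ∑ f, (q f (v e)).natAbs :=
      Finset.single_le_sum (f := fun f => (q f (v e)).natAbs) (fun _ _ => Nat.zero_le _)
        (Finset.mem_univ f)
    have h2 : ∑ f, (q f (v e)).natAbs ≤ ∑ e, ∑ f, (q f (v e)).natAbs :=
      Finset.single_le_sum (f := fun e => ∑ f, (q f (v e)).natAbs) (fun _ _ => Nat.zero_le _)
        (Finset.mem_univ e)
    omega
  have hx : ∀ k, ∃ z : ℤ, ∀ e, ((r e : ℤ) ^ 2) ∣ z - (v e k + r e * w e k) := by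
    intro k
    apply int_crt
    intro e f hef
    apply IsCoprime.pow
    rw [Nat.isCoprime_iff_coprime]
    exact (Nat.coprime_primes (hr e).1 (hr f).1).2 (fun h => hef (hinj h))
  choose x hx using hx
  have h1 : ∀ e, ∃ m : ℤ, q e x = r e * m ∧ ¬ ((r e : ℤ) ∣ m) := by
    intro e
    obtain ⟨t, ht⟩ := hcong e x (fun k => v e k + r e * w e k) ((r e : ℤ) ^ 2) (fun k => hx k e)
    rw [hexp] at ht
    refine ⟨b e + r e * (d e + t), by linear_combination ht, ?_⟩
    intro hdvd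
    apply hrb e
    have := dvd_sub hdvd (dvd_mul_right (r e : ℤ) (d e + t))
    simpa using this
  choose m hm1 hm2 using h1
  have h2 : ∀ e f, ¬ ((r f : ℤ) ∣ m e) := by
    intro e f hdvd
    by_cases hef : e = f
    · subst hef
      exact hm2 e hdvd
    · apply hrq f e hef
      have h3 : (r f : ℤ) ∣ q e x := by
        rw [hm1]
        exact Dvd.dvd.mul_left hdvd _
      have h4 : (r f : ℤ) ∣ q e x - q e (v f) := by
        apply hcong
        intro k
        have h5 := dvd_trans (dvd_pow_self (r f : ℤ) two_ne_zero) (hx k f)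
        have h6 := dvd_add h5 (dvd_mul_right (r f : ℤ) (w f k))
        have h7 : x k - (v f k + ↑(r f) * w f k) + ↑(r f) * w f k = x k - v f k := by ring
        rwa [h7] at h6
      have := dvd_sub h3 h4
      simpa using this
  have hm0 : ∀ e, m e ≠ 0 := by
    intro e h
    apply hm2 e
    rw [h]
    exact dvd_zero _
  refine ⟨x, fun N => ?_⟩
  obtain ⟨p, hp, hpN, hsq⟩ := exists_prime_of_factored r m (fun e => (hr e).1)
    (fun e => by have := (hr e).2; omega) hinj hm0 h2 N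
  refine ⟨p, hp, hpN, fun e => ?_⟩
  rw [hm1]
  exact hsq e

end Pool.Agent.Helper41.Levi
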