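import Pool.Agent.Helper41.Levi.PL
import Pool.Agent.Helper41.Levi.NT

/-!
# Choice of the two forms over the integers
-/

namespace Pool.Agent.Helper41.Levi

theorem PL.coord {n : ℕ} (k : Fin n) : PL fun x : Fin n → ℤ => x k :=
  PL.hom (Pi.evalAddMonoidHom (fun _ => ℤ) k)

theorem PL.constv {A : Type*} [AddCommGroup A] {n : ℕ} (a : Fin n → ℤ) (k : Fin n) :
    PL fun _ : A => a k := PL.const _

/-- Genericity of the first form. -/
structure GoodE {n : ℕ} (u v : Fin n → Fin 4 → ℤ) (E : Fin 6 → ℤ) : Prop where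
  e2 : ∀ i, form E (u i) (v i) ≠ 0
  e4 : ∀ i j, i ≠ j → dete (u i) (v i) (u j) (v j) E ≠ 0
  e5 : pf E ≠ 0
  e3 : ∀ i j k, i ≠ j → k ≠ i → k ≠ j →
    qe (u i) (v i) (u j) (v j) E (star (u k) (v k)) ≠ 0

section ring

variable {R : Type*} [CommRing R]

theorem dete_sum (u v u' v' : Fin 4 → R) :
    dete u v u' v' (star (u + u') (v + v')) = det4 u v u' v' ^ 2 := by
  rw [dete_star]
  have h1 : det4 (u + u') (v + v') u v = det4 u v u' v' := by
    simp [det4, form, star]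
    ring
  have h2 : det4 (u + u') (v + v') u' v' = det4 u v u' v' := by
    simp [det4, form, star]
    ring
  rw [h1, h2]
  ring

theorem det4_comb (x u' v' : Fin 4 → R) (a b : R) :
    det4 x (fun k => a * u' k - b * v' k) u' v' = 0 := by
  simp [det4, form, star]
  ring

theorem form_comb (E : Fin 6 → R) (x y z : Fin 4 → R) (a b : R) :
    form E x (fun k => a * y k - b * z k) = a * form E x y - b * form E x z := by
  simp only [form]
  ring

theorem det4_comb2 (u v w z : Fin 4 → R) (a b : R) :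
    det4 u (fun k => a * w k - b * v k) w z = -(b * det4 u v w z) := by
  simp [det4, form, star]
  ring

theorem det4_comb3 (u v w z : Fin 4 → R) (a b : R) :
    det4 u (fun k => a * z k - b * v k) w z = -(b * det4 u v w z) := by
  simp [det4, form, star]
  ring

theorem det4_comb4 (u v w z : Fin 4 → R) (a b : R) :
    det4 u (fun k => a * w k - b * z k) v w = -(b * det4 u v w z) := by
  simp [det4, form, star]
  ring

theorem det4_comb5 (u v w z : Fin 4 → R) (a b : R) :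
    det4 u (fun k => a * w k - b * z k) v z = -(a * det4 u v w z) := by
  simp [det4, form, star]
  ring

/-- Value of `qe` at `star x y` for `x` in the first plane and `E(x,y) = 0`. -/
theorem qe_star_left (u v u' v' y : Fin 4 → R) (E : Fin 6 → R) (h : form E u y = 0) :
    qe u v u' v' E (star u y) = (form E u v * det4 u y u' v') ^ 2 := by
  rw [qe, dete_star, mixe_eq, form_star, form_star, pfm_star, h, det4_self_left]
  ring

end ring

theorem exists_goodE {n : ℕ} (hn : ∀ i : Fin n, ∃ j, j ≠ i) {u v : Fin n → Fin 4 → ℤ}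
    (hc : ∀ i j, i ≠ j → det4 (u i) (v i) (u j) (v j) ≠ 0) : ∃ E, GoodE u v E := by
  let g : Fin n ⊕ {x : Fin n × Fin n // x.1 ≠ x.2} ⊕ Unit ⊕
      {x : Fin n × Fin n × Fin n // x.1 ≠ x.2.1 ∧ x.2.2 ≠ x.1 ∧ x.2.2 ≠ x.2.1} →
      (Fin 6 → ℤ) → ℤ := fun o E =>
    match o with
    | .inl i => form E (u i) (v i)
    | .inr (.inl x) => dete (u x.1.1) (v x.1.1) (u x.1.2) (v x.1.2) E
    | .inr (.inr (.inl _)) => pf E
    | .inr (.inr (.inr x)) => qe (u x.1.1) (v x.1.1) (u x.1.2.1) (v x.1.2.1) E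
        (star (u x.1.2.2) (v x.1.2.2))
  have hPL : ∀ o, PL (g o) := by
    rintro (i | x | _ | x)
    · exact PL_form PL.coord (PL.constv _) (PL.constv _)
    · exact PL_dete (PL.constv _) (PL.constv _) (PL.constv _) (PL.constv _) PL.coord
    · exact PL_pf PL.coord
    · exact PL_qe (PL.constv _) (PL.constv _) (PL.constv _) (PL.constv _) PL.coord (PL.constv _)
  have hne : ∀ o, ∃ E, g o E ≠ 0 := by
    rintro (i | ⟨⟨i, j⟩, hij⟩ | _ | ⟨⟨i, j, k⟩, hij, hki, hkj⟩)
    · obtain ⟨j, hj⟩ := hn i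
      exact ⟨star (u j) (v j), hc j i hj⟩
    · refine ⟨star (u i + u j) (v i + v j), ?_⟩
      show dete (u i) (v i) (u j) (v j) _ ≠ 0
      rw [dete_sum]
      exact pow_ne_zero 2 (hc i j hij)
    · refine ⟨![1, 0, 0, 0, 0, 1], ?_⟩
      show pf _ ≠ 0
      simp [pf]
    · simp only at hij hki hkj
      have h1 : dete (u i) (v i) (u j) (v j) (star (u k) (v k)) ≠ 0 := by
        rw [dete_star]
        exact mul_ne_zero (hc k i hki) (hc k j hkj)
      have h2 : form (star (u k) (v k)) (u i) (u j) ≠ 0 ∨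
          form (star (u k) (v k)) (u i) (v j) ≠ 0 := by
        by_contra hcon
        push Not at hcon
        apply h1
        rw [dete, hcon.1, hcon.2]
        ring
      have key : ∀ y : Fin 4 → ℤ, det4 (u i) y (u j) (v j) = 0 →
          form (star (u k) (v k)) (u i) y ≠ 0 →
          qe (u i) (v i) (u j) (v j) (star (u i) y) (star (u k) (v k)) ≠ 0 := by
        intro y hy hky
        have e1 : det4 (u i) y (u k) (v k) ≠ 0 := by
          rw [← det4_swap]
          exact hky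
        rw [qe, dete_star, mixe_eq, form_star, form_star, form_star, form_star, pfm_star,
          form_star, hy, det4_self_left]
        simp only [mul_zero, zero_mul, add_zero, sub_zero, zero_sub]
        exact pow_ne_zero 2 (neg_ne_zero.2 (mul_ne_zero e1 (hc i j hij)))
      rcases h2 with h2 | h2
      · exact ⟨star (u i) (u j), key _ (det4_self_mid _ _ _) h2⟩
      · exact ⟨star (u i) (v j), key _ (det4_self_right _ _ _) h2⟩
  obtain ⟨E, hE⟩ := PL.exists_common g hPL hne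
  refine ⟨E, ⟨fun i => hE (.inl i), fun i j hij => hE (.inr (.inl ⟨(i, j), hij⟩)),
    hE (.inr (.inr (.inl ()))), fun i j k hij hki hkj =>
      hE (.inr (.inr (.inr ⟨(i, j, k), hij, hki, hkj⟩)))⟩⟩

theorem exists_ne_zero_of_lead {f : ℤ → ℤ} {a b c : ℤ} (h : ∀ s, f s = a + s * b + s ^ 2 * c)
    (hc : c ≠ 0) : ∃ s, f s ≠ 0 := by
  by_contra hcon
  push Not at hcon
  have h0 := hcon 0
  have h1 := hcon 1
  have h2 := hcon (-1)
  rw [h] at h0 h1 h2
  apply hc
  linarith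

section W

variable {n : ℕ} {u v : Fin n → Fin 4 → ℤ} {E : Fin 6 → ℤ}

theorem exists_W0 (hn : ∃ i j : Fin n, i ≠ j)
    (hc : ∀ i j, i ≠ j → det4 (u i) (v i) (u j) (v j) ≠ 0) (hE : GoodE u v E) :
    ∃ W w : Fin 6 → ℤ, q0 E W = 0 ∧ 2 * pfm E W * pfm E w - 4 * pf E * pfm W w ≠ 0 ∧
      ∀ i j, i ≠ j → qe (u i) (v i) (u j) (v j) E W ≠ 0 := by
  let Y : (Fin 4 → ℤ) × (Fin 4 → ℤ) × (Fin 4 → ℤ) → Fin 4 → ℤ := fun t k =>
    form E t.1 t.2.2 * t.2.1 k - form E t.1 t.2.1 * t.2.2 k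
  have p1 : ∀ k, PL fun t : (Fin 4 → ℤ) × (Fin 4 → ℤ) × (Fin 4 → ℤ) => t.1 k := fun k =>
    PL.hom ((Pi.evalAddMonoidHom (fun _ : Fin 4 => ℤ) k).comp
      (AddMonoidHom.fst (Fin 4 → ℤ) ((Fin 4 → ℤ) × (Fin 4 → ℤ))))
  have p2 : ∀ k, PL fun t : (Fin 4 → ℤ) × (Fin 4 → ℤ) × (Fin 4 → ℤ) => t.2.1 k := fun k =>
    PL.hom (((Pi.evalAddMonoidHom (fun _ : Fin 4 => ℤ) k).comp
      (AddMonoidHom.fst (Fin 4 → ℤ) (Fin 4 → ℤ))).comp
      (AddMonoidHom.snd (Fin 4 → ℤ) ((Fin 4 → ℤ) × (Fin 4 → ℤ))))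
  have p3 : ∀ k, PL fun t : (Fin 4 → ℤ) × (Fin 4 → ℤ) × (Fin 4 → ℤ) => t.2.2 k := fun k =>
    PL.hom (((Pi.evalAddMonoidHom (fun _ : Fin 4 => ℤ) k).comp
      (AddMonoidHom.snd (Fin 4 → ℤ) (Fin 4 → ℤ))).comp
      (AddMonoidHom.snd (Fin 4 → ℤ) ((Fin 4 → ℤ) × (Fin 4 → ℤ))))
  have pY : ∀ k, PL fun t => Y t k := fun k =>
    PL.sub (PL.mul (PL_form (PL.constv _) p1 p3) (p2 k))
      (PL.mul (PL_form (PL.constv _) p1 p2) (p3 k))
  have hY : ∀ t, form E t.1 (Y t) = 0 := by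
    intro t
    show form E t.1 (fun k => form E t.1 t.2.2 * t.2.1 k - form E t.1 t.2.1 * t.2.2 k) = 0
    rw [form_comb]
    ring
  let g : {x : Fin n × Fin n // x.1 ≠ x.2} → (Fin 4 → ℤ) × (Fin 4 → ℤ) × (Fin 4 → ℤ) → ℤ :=
    fun x t => qe (u x.1.1) (v x.1.1) (u x.1.2) (v x.1.2) E (star t.1 (Y t))
  have hPL : ∀ o, PL (g o) := fun o =>
    PL_qe (PL.constv _) (PL.constv _) (PL.constv _) (PL.constv _) (PL.constv _) (PL_star p1 pY)
  have hne : ∀ o, ∃ t, g o t ≠ 0 := by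
    rintro ⟨⟨i, j⟩, hij⟩
    have h2 : form E (u i) (u j) ≠ 0 ∨ form E (u i) (v j) ≠ 0 := by
      by_contra hcon
      push Not at hcon
      apply hE.e4 i j hij
      rw [dete, hcon.1, hcon.2]
      ring
    rcases h2 with h2 | h2
    · refine ⟨(u i, u j, v i), ?_⟩
      show qe (u i) (v i) (u j) (v j) E (star (u i) (Y (u i, u j, v i))) ≠ 0
      rw [qe_star_left _ _ _ _ _ _ (hY (u i, u j, v i))]
      have : det4 (u i) (Y (u i, u j, v i)) (u j) (v j)
          = -(form E (u i) (u j) * det4 (u i) (v i) (u j) (v j)) := det4_comb2 _ _ _ _ _ _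
      rw [this]
      exact pow_ne_zero 2 (mul_ne_zero (hE.e2 i) (neg_ne_zero.2 (mul_ne_zero h2 (hc i j hij))))
    · refine ⟨(u i, v j, v i), ?_⟩
      show qe (u i) (v i) (u j) (v j) E (star (u i) (Y (u i, v j, v i))) ≠ 0
      rw [qe_star_left _ _ _ _ _ _ (hY (u i, v j, v i))]
      have : det4 (u i) (Y (u i, v j, v i)) (u j) (v j)
          = -(form E (u i) (v j) * det4 (u i) (v i) (u j) (v j)) := det4_comb3 _ _ _ _ _ _
      rw [this]
      exact pow_ne_zero 2 (mul_ne_zero (hE.e2 i) (neg_ne_zero.2 (mul_ne_zero h2 (hc i j hij))))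
  obtain ⟨t, ht⟩ := PL.exists_common g hPL hne
  have ht' : ∀ i j, i ≠ j → qe (u i) (v i) (u j) (v j) E (star t.1 (Y t)) ≠ 0 :=
    fun i j hij => ht ⟨(i, j), hij⟩
  have hW : star t.1 (Y t) ≠ 0 := by
    intro h0
    obtain ⟨i, j, hij⟩ := hn
    apply ht' i j hij
    rw [h0]
    simp [qe, mixe, dete, form]
  obtain ⟨w, hw⟩ := exists_pfm_ne hW
  refine ⟨star t.1 (Y t), w, ?_, ?_, ht'⟩
  · rw [q0, pf_star, pfm_star, hY]
    ring
  · rw [pfm_star, hY]
    simp only [mul_zero, zero_mul, zero_sub]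
    exact neg_ne_zero.2 (mul_ne_zero (mul_ne_zero four_ne_zero hE.e5) hw)

theorem exists_Ve (hc : ∀ i j, i ≠ j → det4 (u i) (v i) (u j) (v j) ≠ 0) (hE : GoodE u v E)
    {i j : Fin n} (hij : i ≠ j) :
    ∃ W w : Fin 6 → ℤ, qe (u i) (v i) (u j) (v j) E W = 0 ∧
      2 * mixe (u i) (v i) (u j) (v j) E W * mixe (u i) (v i) (u j) (v j) E w
        - 4 * dete (u i) (v i) (u j) (v j) E * mixe (u i) (v i) (u j) (v j) W w ≠ 0 ∧
      q0 E W ≠ 0 ∧
      ∀ k l, k ≠ l → ((i ≠ k ∧ i ≠ l) ∨ (j ≠ k ∧ j ≠ l)) →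
        qe (u k) (v k) (u l) (v l) E W ≠ 0 := by
  set y : Fin 4 → ℤ := fun k =>
    form E (u i) (v j) * u j k - form E (u i) (u j) * v j k with hy
  set ν : Fin 6 → ℤ := star (u i) y with hν
  have hEy : form E (u i) y = 0 := by
    rw [hy, form_comb]
    ring
  have hdet : det4 (u i) y (u j) (v j) = 0 := det4_comb _ _ _ _ _
  have hmix : ∀ B, mixe (u i) (v i) (u j) (v j) B ν
      = -(pfm B ν * det4 (u i) (v i) (u j) (v j)) := by
    intro B
    rw [mixe_eq, hν, form_star, form_star, hdet, det4_self_left]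
    ring
  have hν0 : ν ≠ 0 := by
    intro h0
    have h1 : form ν (v i) (u j) = 0 := by rw [h0]; simp [form]
    have h2 : form ν (v i) (v j) = 0 := by rw [h0]; simp [form]
    rw [hν, form_star, hy, det4_comb4] at h1
    rw [hν, form_star, hy, det4_comb5] at h2
    have h3 := (mul_eq_zero.1 (neg_eq_zero.1 h1)).resolve_right (hc i j hij)
    have h4 := (mul_eq_zero.1 (neg_eq_zero.1 h2)).resolve_right (hc i j hij)
    apply hE.e4 i j hij
    rw [dete, h3, h4]
    ring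
  -- choice of x
  obtain ⟨x, hx⟩ := PL.exists_common
    (ι := {x : Fin n × Fin n // x.1 ≠ x.2 ∧ i ≠ x.1 ∧ i ≠ x.2})
    (fun f (s : ℤ) => qe (u f.1.1) (v f.1.1) (u f.1.2) (v f.1.2) E
      (fun m => ν m + s * star (u i) (v i) m))
    (fun f => PL_qe (PL.constv _) (PL.constv _) (PL.constv _) (PL.constv _) (PL.constv _)
      (fun m => PL.add (PL.const _) (PL.mul (PL.hom (AddMonoidHom.id ℤ)) (PL.const _))))
    (by
      rintro ⟨⟨k, l⟩, hkl, hik, hil⟩
      exact exists_ne_zero_of_lead (fun s => qe_add_mul _ _ _ _ _ _ _ s)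
        (hE.e3 k l i hkl hik hil))
  -- choice of the second multiplier
  obtain ⟨z, hz⟩ := PL.exists_common
    (ι := Option {x : Fin n × Fin n // x.1 ≠ x.2 ∧
      ((i ≠ x.1 ∧ i ≠ x.2) ∨ (j ≠ x.1 ∧ j ≠ x.2))})
    (fun f (s : ℤ) => match f with
      | none => q0 E (fun m => (ν m + x * star (u i) (v i) m) + s * star (u j) (v j) m)
      | some f => qe (u f.1.1) (v f.1.1) (u f.1.2) (v f.1.2) E
        (fun m => (ν m + x * star (u i) (v i) m) + s * star (u j) (v j) m))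
    (by
      rintro (_ | f)
      · exact PL_q0 (PL.constv _)
          (fun m => PL.add (PL.const _) (PL.mul (PL.hom (AddMonoidHom.id ℤ)) (PL.const _)))
      · exact PL_qe (PL.constv _) (PL.constv _) (PL.constv _) (PL.constv _) (PL.constv _)
          (fun m => PL.add (PL.const _) (PL.mul (PL.hom (AddMonoidHom.id ℤ)) (PL.const _))))
    (by
      rintro (_ | ⟨⟨k, l⟩, hkl, h | h⟩)
      · refine exists_ne_zero_of_lead (fun s => q0_add_mul _ _ _ s) ?_
        rw [q0, pf_star, pfm_star]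
        have := hE.e2 j
        simpa using this
      · refine ⟨0, ?_⟩
        have := hx ⟨(k, l), hkl, h.1, h.2⟩
        simpa using this
      · exact exists_ne_zero_of_lead (fun s => qe_add_mul _ _ _ _ _ _ _ s)
          (hE.e3 k l j hkl h.1 h.2))
  set W : Fin 6 → ℤ :=
    fun m => (ν m + x * star (u i) (v i) m) + z * star (u j) (v j) m with hW
  have hmW : ∀ B, mixe (u i) (v i) (u j) (v j) B W = mixe (u i) (v i) (u j) (v j) B ν := by
    intro B
    rw [hW, mixe_add_mul, mixe_star_right, mixe_add_mul, mixe_star_left]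
    ring
  obtain ⟨w, hw⟩ := exists_pfm_ne hν0
  refine ⟨W, w, ?_, ?_, hz none, fun k l hkl h => hz (some ⟨(k, l), hkl, h⟩)⟩
  · rw [hW, qe_add_mul, qe_add_mul]
    rw [mixe_star_right, mixe_star_right, mixe_star_left, mixe_star_left]
    have e1 : qe (u i) (v i) (u j) (v j) E (star (u j) (v j)) = 0 := by
      rw [qe, mixe_star_right, dete_star, det4_self_left]
      ring
    have e2 : qe (u i) (v i) (u j) (v j) E (star (u i) (v i)) = 0 := by
      rw [qe, mixe_star_left, dete_star, det4_self_left]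
      ring
    rw [e1, e2, hν, qe_star_left _ _ _ _ _ _ hEy, hdet]
    ring
  · rw [hmW E, hmix E, mixe_comm _ _ _ _ W w, hmW w, hmix w, hν, pfm_star, hEy, ← hν,
      pfm_comm w ν]
    have h1 := hc i j hij
    have h2 := hE.e4 i j hij
    have h3 : 4 * dete (u i) (v i) (u j) (v j) E
        * (pfm ν w * det4 (u i) (v i) (u j) (v j)) ≠ 0 :=
      mul_ne_zero (mul_ne_zero four_ne_zero h2) (mul_ne_zero hw h1)
    intro h0
    apply h3
    linear_combination h0

end W

theorem dvd_sub_of_map {κ : Type*} (q : ∀ {S : Type} [CommRing S], (κ → S) → S)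
    (hq : ∀ {S : Type} [CommRing S] (φ : ℤ →+* S) (x : κ → ℤ), φ (q x) = q (fun k => φ (x k)))
    (x y : κ → ℤ) (M : ℤ) (h : ∀ k, M ∣ x k - y k) : M ∣ q x - q y := by
  have h1 : (Ideal.Quotient.mk (Ideal.span {M})) (q x)
      = (Ideal.Quotient.mk (Ideal.span {M})) (q y) := by
    rw [hq, hq]
    congr 1
    ext k
    rw [Ideal.Quotient.eq, Ideal.mem_span_singleton]
    exact h k
  rwa [Ideal.Quotient.eq, Ideal.mem_span_singleton] at h1

end Pool.Agent.Helper41.Levi
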