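import Pool.Agent.Helper41.Levi.PlaneDef

/-!
# Embedding configurations in finite projective planes: definitions

Forms: an alternating bilinear form on `R^4` is given by its six coefficients
`A : Fin 6 → R` (in the order 01, 02, 03, 12, 13, 23).
-/

namespace Pool.Agent.Helper41.Levi

section forms

variable {R : Type*} [CommRing R]

/-- The alternating form with coefficients `A`. -/
def form (A : Fin 6 → R) (x y : Fin 4 → R) : R :=
  A 0 * (x 0 * y 1 - x 1 * y 0) + A 1 * (x 0 * y 2 - x 2 * y 0)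
    + A 2 * (x 0 * y 3 - x 3 * y 0) + A 3 * (x 1 * y 2 - x 2 * y 1)
    + A 4 * (x 1 * y 3 - x 3 * y 1) + A 5 * (x 2 * y 3 - x 3 * y 2)

/-- Pfaffian. -/
def pf (A : Fin 6 → R) : R := A 0 * A 5 - A 1 * A 4 + A 2 * A 3

/-- Polarised Pfaffian. -/
def pfm (A B : Fin 6 → R) : R :=
  A 0 * B 5 + B 0 * A 5 - A 1 * B 4 - B 1 * A 4 + A 2 * B 3 + B 2 * A 3

/-- The form `(x,y) ↦ det(u,v,x,y)`. -/
def star (u v : Fin 4 → R) : Fin 6 → R :=
  ![u 2 * v 3 - u 3 * v 2, -(u 1 * v 3 - u 3 * v 1), u 1 * v 2 - u 2 * v 1,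
    u 0 * v 3 - u 3 * v 0, -(u 0 * v 2 - u 2 * v 0), u 0 * v 1 - u 1 * v 0]

/-- The determinant of four vectors. -/
def det4 (u v x y : Fin 4 → R) : R := form (star u v) x y

/-- Determinant of the `2 × 2` matrix of `A` on `⟨u,v⟩ × ⟨u',v'⟩`. -/
def dete (u v u' v' : Fin 4 → R) (A : Fin 6 → R) : R :=
  form A u u' * form A v v' - form A u v' * form A v u'

/-- Polarisation of `dete`. -/
def mixe (u v u' v' : Fin 4 → R) (A B : Fin 6 → R) : R :=
  form A u u' * form B v v' + form B u u' * form A v v'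
    - form A u v' * form B v u' - form B u v' * form A v u'

/-- Discriminant of the Pfaffian pencil. -/
def q0 (E F : Fin 6 → R) : R := pfm E F ^ 2 - 4 * pf E * pf F

/-- Discriminant of the pencil of the restrictions to a pair of planes. -/
def qe (u v u' v' : Fin 4 → R) (E F : Fin 6 → R) : R :=
  mixe u v u' v' E F ^ 2 - 4 * dete u v u' v' E * dete u v u' v' F

end forms

/-- Spread of `V` by 2-dimensional subspaces. -/
structure IsSpread {F V : Type*} [Field F] [AddCommGroup V] [Module F V]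
    (S : Set (Submodule F V)) : Prop where
  rank : ∀ A ∈ S, Module.finrank F A = 2
  cover : ∀ v : V, v ≠ 0 → ∃ A ∈ S, v ∈ A
  disj : ∀ A ∈ S, ∀ B ∈ S, A ≠ B → Disjoint A B

end Pool.Agent.Helper41.Levi
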