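import Pool.Agent.Helper41.Levi.Defs

/-!
# Multiply derived spreads
-/

namespace Pool.Agent.Helper41.Levi

section ring

variable {R : Type*} [CommRing R]

/-- The matrix of `G` applied to `y`. -/
def mfun (G : Fin 6 → R) (y : Fin 4 → R) : Fin 4 → R :=
  ![G 0 * y 1 + G 1 * y 2 + G 2 * y 3, -(G 0 * y 0) + G 3 * y 2 + G 4 * y 3,
    -(G 1 * y 0) - G 3 * y 1 + G 5 * y 3, -(G 2 * y 0) - G 4 * y 1 - G 5 * y 2]

/-- The matrix of the dual form of `E` applied to `m`. -/
def hfun (E : Fin 6 → R) (m : Fin 4 → R) : Fin 4 → R :=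
  ![E 5 * m 1 - E 4 * m 2 + E 3 * m 3, -(E 5 * m 0) + E 2 * m 2 - E 1 * m 3,
    E 4 * m 0 - E 2 * m 1 + E 0 * m 3, -(E 3 * m 0) + E 1 * m 1 - E 0 * m 2]

/-- The endomorphism `J` attached to the pair of forms. -/
def Jlin (E G : Fin 6 → R) : (Fin 4 → R) →ₗ[R] (Fin 4 → R) where
  toFun y := hfun E (mfun G y)
  map_add' x y := by
    ext i
    fin_cases i <;> simp [hfun, mfun] <;> ring
  map_smul' c y := by
    ext i
    fin_cases i <;> simp [hfun, mfun] <;> ring

theorem Jlin_apply (E G : Fin 6 → R) (y : Fin 4 → R) : Jlin E G y = hfun E (mfun G y) := rfl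

theorem Jlin_sq (E G : Fin 6 → R) (y : Fin 4 → R) :
    Jlin E G (Jlin E G y) = (-pfm E G) • Jlin E G y - (pf E * pf G) • y := by
  ext i
  fin_cases i <;> simp [Jlin_apply, hfun, mfun, pfm, pf] <;> ring

theorem form_J_left (E G : Fin 6 → R) (x : Fin 4 → R) : form E x (Jlin E G x) = 0 := by
  simp [Jlin_apply, hfun, mfun, form]
  ring

theorem form_J_right (E G : Fin 6 → R) (x : Fin 4 → R) : form G x (Jlin E G x) = 0 := by
  simp [Jlin_apply, hfun, mfun, form]
  ring

theorem form_lin_right (E : Fin 6 → R) (x y z : Fin 4 → R) (a b : R) :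
    form E x (a • y + b • z) = a * form E x y + b * form E x z := by
  simp [form]
  ring

theorem form_lin_left (E : Fin 6 → R) (x y z : Fin 4 → R) (a b : R) :
    form E (a • y + b • z) x = a * form E y x + b * form E z x := by
  simp [form]
  ring

theorem form_self (E : Fin 6 → R) (x : Fin 4 → R) : form E x x = 0 := by
  simp [form]
  ring

theorem form_swap (E : Fin 6 → R) (x y : Fin 4 → R) : form E y x = - form E x y := by
  simp [form]
  ring

/-- Multiplication by `a + b J`. -/
def mulJ (E G : Fin 6 → R) (a b : R) : (Fin 4 → R) →ₗ[R] (Fin 4 → R) :=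
  a • LinearMap.id + b • Jlin E G

theorem mulJ_apply (E G : Fin 6 → R) (a b : R) (x : Fin 4 → R) :
    mulJ E G a b x = a • x + b • Jlin E G x := rfl

theorem mulJ_mulJ (E G : Fin 6 → R) (a b c d : R) (x : Fin 4 → R) :
    mulJ E G a b (mulJ E G c d x) =
      mulJ E G (a * c - pf E * pf G * (b * d)) (a * d + b * c - pfm E G * (b * d)) x := by
  simp only [mulJ_apply, map_add, map_smul, Jlin_sq]
  module

theorem form_mulJ_left (E G : Fin 6 → R) (a b : R) (x : Fin 4 → R) :
    form E x (mulJ E G a b x) = 0 := by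
  rw [mulJ_apply, form_lin_right, form_self, form_J_left]
  ring

theorem form_mulJ_right (E G : Fin 6 → R) (a b : R) (x : Fin 4 → R) :
    form G x (mulJ E G a b x) = 0 := by
  rw [mulJ_apply, form_lin_right, form_self, form_J_right]
  ring

end ring

section field

variable {F : Type} [Field F]

/-- Norm. -/
def nrm (E G : Fin 6 → F) (a b : F) : F := a ^ 2 - pfm E G * a * b + pf E * pf G * b ^ 2

theorem nrm_ne_zero {E G : Fin 6 → F} (h0 : ¬ IsSquare (q0 E G)) {a b : F}
    (hab : ¬ (a = 0 ∧ b = 0)) : nrm E G a b ≠ 0 := by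
  intro h
  by_cases hb : b = 0
  · subst hb
    simp [nrm] at h
    exact hab ⟨h, rfl⟩
  · apply h0
    refine ⟨(2 * a - pfm E G * b) / b, ?_⟩
    field_simp
    unfold nrm at h
    unfold q0
    linear_combination (-4 : F) * h

theorem mulJ_inv {E G : Fin 6 → F} (a b : F) (x : Fin 4 → F) :
    mulJ E G (a - pfm E G * b) (-b) (mulJ E G a b x) = nrm E G a b • x := by
  rw [mulJ_mulJ, mulJ_apply]
  have h1 : (a - pfm E G * b) * a - pf E * pf G * (-b * b) = nrm E G a b := by
    unfold nrm; ring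
  have h2 : (a - pfm E G * b) * b + -b * a - pfm E G * (-b * b) = 0 := by ring
  rw [h1, h2]
  simp

theorem mulJ_injective {E G : Fin 6 → F} (h0 : ¬ IsSquare (q0 E G)) {a b : F}
    (hab : ¬ (a = 0 ∧ b = 0)) : Function.Injective (mulJ E G a b) := by
  intro x y hxy
  have h1 := mulJ_inv (E := E) (G := G) a b x
  have h2 := mulJ_inv (E := E) (G := G) a b y
  rw [hxy, h2] at h1
  exact (smul_right_injective _ (nrm_ne_zero h0 hab) h1).symm

/-- `z` is a multiple of `x` over `F[J]`. -/
def Rel (E G : Fin 6 → F) (x z : Fin 4 → F) : Prop := ∃ a b : F, z = mulJ E G a b x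

theorem Rel.refl (E G : Fin 6 → F) (x : Fin 4 → F) : Rel E G x x :=
  ⟨1, 0, by simp [mulJ_apply]⟩

theorem Rel.trans {E G : Fin 6 → F} {x y z : Fin 4 → F} (h1 : Rel E G x y) (h2 : Rel E G y z) :
    Rel E G x z := by
  obtain ⟨a, b, rfl⟩ := h1
  obtain ⟨c, d, rfl⟩ := h2
  exact ⟨_, _, mulJ_mulJ E G c d a b x⟩

theorem Rel.symm {E G : Fin 6 → F} (h0 : ¬ IsSquare (q0 E G)) {x z : Fin 4 → F}
    (hz : z ≠ 0) (h : Rel E G x z) : Rel E G z x := by
  obtain ⟨a, b, rfl⟩ := h
  have hab : ¬ (a = 0 ∧ b = 0) := by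
    rintro ⟨rfl, rfl⟩
    apply hz
    simp [mulJ_apply]
  have hn := nrm_ne_zero h0 hab
  refine ⟨(nrm E G a b)⁻¹ * (a - pfm E G * b), (nrm E G a b)⁻¹ * (-b), ?_⟩
  have h1 := mulJ_inv (E := E) (G := G) a b x
  have h2 : mulJ E G ((nrm E G a b)⁻¹ * (a - pfm E G * b)) ((nrm E G a b)⁻¹ * (-b))
      (mulJ E G a b x) = (nrm E G a b)⁻¹ • mulJ E G (a - pfm E G * b) (-b) (mulJ E G a b x) := by
    simp only [mulJ_apply]
    module
  rw [h2, h1, smul_smul, inv_mul_cancel₀ hn, one_smul]

theorem Rel.form_left {E G : Fin 6 → F} {x z : Fin 4 → F} (h : Rel E G x z) :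
    form E x z = 0 := by
  obtain ⟨a, b, rfl⟩ := h
  exact form_mulJ_left E G a b x

theorem Rel.form_right {E G : Fin 6 → F} {x z : Fin 4 → F} (h : Rel E G x z) :
    form G x z = 0 := by
  obtain ⟨a, b, rfl⟩ := h
  exact form_mulJ_right E G a b x

/-- The `F[J]`-line through `z`. -/
def cline (E G : Fin 6 → F) (z : Fin 4 → F) : Submodule F (Fin 4 → F) :=
  Submodule.span F {z, Jlin E G z}

theorem mem_cline {E G : Fin 6 → F} {z w : Fin 4 → F} : w ∈ cline E G z ↔ Rel E G z w := by
  unfold cline Rel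
  rw [Submodule.mem_span_pair]
  simp only [mulJ_apply, eq_comm]

theorem finrank_span_pair_of {u v : Fin 4 → F}
    (h : ∀ a b : F, a • u + b • v = 0 → a = 0 ∧ b = 0) :
    Module.finrank F (Submodule.span F {u, v}) = 2 := by
  have hli : LinearIndependent F ![u, v] := by
    rw [LinearIndependent.pair_iff]
    exact h
  have h1 := finrank_span_eq_card hli
  have h2 : Set.range ![u, v] = {u, v} := by
    simp [Matrix.range_cons, Set.pair_comm]
  rw [h2] at h1
  simpa using h1

theorem finrank_cline {E G : Fin 6 → F} (h0 : ¬ IsSquare (q0 E G)) {z : Fin 4 → F}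
    (hz : z ≠ 0) : Module.finrank F (cline E G z) = 2 := by
  apply finrank_span_pair_of
  intro a b hab
  by_contra hne
  have := mulJ_injective h0 hne (a₁ := z) (a₂ := 0) (by
    rw [map_zero, mulJ_apply, hab])
  exact hz this

theorem cline_eq {E G : Fin 6 → F} (h0 : ¬ IsSquare (q0 E G)) {z w : Fin 4 → F}
    (hw : w ≠ 0) (h : Rel E G z w) : cline E G z = cline E G w := by
  ext y
  rw [mem_cline, mem_cline]
  exact ⟨fun h' => (h.symm h0 hw).trans h', fun h' => h.trans h'⟩

theorem finrank_map_mulJ {E G : Fin 6 → F} (h0 : ¬ IsSquare (q0 E G)) {a b : F}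
    (hab : ¬ (a = 0 ∧ b = 0)) (U : Submodule F (Fin 4 → F)) :
    Module.finrank F (U.map (mulJ E G a b)) = Module.finrank F U :=
  (Submodule.equivMapOfInjective _ (mulJ_injective h0 hab) U).finrank_eq.symm

theorem isSquare_of_zero {A B C g d : F} (hgd : ¬ (g = 0 ∧ d = 0))
    (h : A * g ^ 2 + B * g * d + C * d ^ 2 = 0) : IsSquare (B ^ 2 - 4 * A * C) := by
  by_cases hd : d = 0
  · subst hd
    have hg : g ≠ 0 := fun hg => hgd ⟨hg, rfl⟩
    have hA : A = 0 := by
      have : A * g ^ 2 = 0 := by linear_combination h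
      rcases mul_eq_zero.1 this with h1 | h1
      · exact h1
      · exact absurd (pow_eq_zero_iff (two_ne_zero)|>.1 h1) hg
    exact ⟨B, by rw [hA]; ring⟩
  · refine ⟨(2 * A * g + B * d) / d, ?_⟩
    field_simp
    linear_combination (-4 * A) * h

theorem isSquare_qe {E G : Fin 6 → F} {u v u' v' : Fin 4 → F} {a b c d : F}
    (hab : ¬ (a = 0 ∧ b = 0)) (hcd : ¬ (c = 0 ∧ d = 0))
    (h1 : form E (a • u + b • v) (c • u' + d • v') = 0)
    (h2 : form G (a • u + b • v) (c • u' + d • v') = 0) :
    IsSquare (qe u v u' v' E G) := by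
  rw [form_lin_left, form_lin_right, form_lin_right] at h1 h2
  unfold qe mixe dete
  set A0 := form E u u'
  set B0 := form E u v'
  set C0 := form E v u'
  set D0 := form E v v'
  set A1 := form G u u'
  set B1 := form G u v'
  set C1 := form G v u'
  set D1 := form G v v'
  have key : (c * A0 + d * B0) * (c * C1 + d * D1) - (c * C0 + d * D0) * (c * A1 + d * B1) = 0 := by
    by_cases ha : a = 0
    · have hb : b ≠ 0 := fun hb => hab ⟨ha, hb⟩
      have : b * ((c * A0 + d * B0) * (c * C1 + d * D1)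
          - (c * C0 + d * D0) * (c * A1 + d * B1)) = 0 := by
        linear_combination (c * A0 + d * B0) * h2 - (c * A1 + d * B1) * h1
      exact (mul_eq_zero.1 this).resolve_left hb
    · have : a * ((c * A0 + d * B0) * (c * C1 + d * D1)
          - (c * C0 + d * D0) * (c * A1 + d * B1)) = 0 := by
        linear_combination (c * C1 + d * D1) * h1 - (c * C0 + d * D0) * h2
      exact (mul_eq_zero.1 this).resolve_left ha
  have h3 := isSquare_of_zero (A := A0 * C1 - C0 * A1) (B := A0 * D1 + B0 * C1 - C0 * B1 - D0 * A1)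
    (C := B0 * D1 - D0 * B1) hcd (by linear_combination key)
  convert h3 using 1
  ring

/-- The derived spread. -/
def dspread {L : Type*} (E G : Fin 6 → F) (u v : L → Fin 4 → F) :
    Set (Submodule F (Fin 4 → F)) :=
  {S | (∃ z, z ≠ 0 ∧ (∀ l, ∀ x ∈ Submodule.span F {u l, v l}, x ≠ 0 → ¬ Rel E G x z) ∧
      S = cline E G z) ∨
    ∃ l a b, ¬ (a = 0 ∧ b = 0) ∧ S = (Submodule.span F {u l, v l}).map (mulJ E G a b)}

theorem mulJ_smul (E G : Fin 6 → F) (a b c : F) (x : Fin 4 → F) :
    mulJ E G (c * a) (c * b) x = c • mulJ E G a b x := by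
  simp only [mulJ_apply]
  module

theorem dependent_of_form_eq_zero {E : Fin 6 → F} {u v x y : Fin 4 → F}
    (hE : form E u v ≠ 0) (hx : x ∈ Submodule.span F {u, v}) (hy : y ∈ Submodule.span F {u, v})
    (hx0 : x ≠ 0) (h : form E x y = 0) : ∃ c : F, y = c • x := by
  rw [Submodule.mem_span_pair] at hx hy
  obtain ⟨a, b, rfl⟩ := hx
  obtain ⟨c, d, rfl⟩ := hy
  rw [form_lin_left, form_lin_right, form_lin_right, form_self, form_self,
    form_swap E u v] at h
  have h1 : (a * d - b * c) * form E u v = 0 := by linear_combination h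
  have h2 : a * d - b * c = 0 := (mul_eq_zero.1 h1).resolve_right hE
  by_cases ha : a = 0
  · subst ha
    have hb : b ≠ 0 := by
      rintro rfl
      simp at hx0
    have hc : c = 0 := by
      have : b * c = 0 := by linear_combination -h2
      exact (mul_eq_zero.1 this).resolve_left hb
    subst hc
    refine ⟨d / b, ?_⟩
    simp [smul_smul, div_mul_cancel₀ _ hb]
  · refine ⟨c / a, ?_⟩
    rw [smul_add, smul_smul, smul_smul, div_mul_cancel₀ _ ha]
    congr 2
    field_simp
    linear_combination h2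

theorem isSpread_dspread {L : Type*} {E G : Fin 6 → F} {u v : L → Fin 4 → F}
    (h0 : ¬ IsSquare (q0 E G))
    (hq : ∀ l m, l ≠ m → ¬ IsSquare (qe (u l) (v l) (u m) (v m) E G))
    (hE : ∀ l, form E (u l) (v l) ≠ 0) : IsSpread (dspread E G u v) := by
  have hfr : ∀ l, Module.finrank F (Submodule.span F {u l, v l}) = 2 := by
    intro l
    apply finrank_span_pair_of
    intro a b hab
    have h1 : form E (a • u l + b • v l) (v l) = 0 := by rw [hab]; simp [form]
    have h2 : form E (u l) (a • u l + b • v l) = 0 := by rw [hab]; simp [form]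
    rw [form_lin_left, form_self] at h1
    rw [form_lin_right, form_self] at h2
    refine ⟨?_, ?_⟩
    · have : a * form E (u l) (v l) = 0 := by linear_combination h1
      exact (mul_eq_zero.1 this).resolve_right (hE l)
    · have : b * form E (u l) (v l) = 0 := by linear_combination h2
      exact (mul_eq_zero.1 this).resolve_right (hE l)
  have hpair : ∀ l m, ∀ x ∈ Submodule.span F {u l, v l}, x ≠ 0 →
      ∀ y ∈ Submodule.span F {u m, v m}, y ≠ 0 → Rel E G x y → l = m := by
    intro l m x hx hx0 y hy hy0 hR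
    by_contra hlm
    apply hq l m hlm
    rw [Submodule.mem_span_pair] at hx hy
    obtain ⟨a, b, rfl⟩ := hx
    obtain ⟨c, d, rfl⟩ := hy
    refine isSquare_qe (a := a) (b := b) (c := c) (d := d) ?_ ?_ hR.form_left hR.form_right
    · rintro ⟨rfl, rfl⟩
      simp at hx0
    · rintro ⟨rfl, rfl⟩
      simp at hy0
  refine ⟨?_, ?_, ?_⟩
  · rintro A (⟨z, hz, -, rfl⟩ | ⟨l, a, b, hab, rfl⟩)
    · exact finrank_cline h0 hz
    · rw [finrank_map_mulJ h0 hab, hfr]
  · intro z hz
    by_cases h : ∀ l, ∀ x ∈ Submodule.span F {u l, v l}, x ≠ 0 → ¬ Rel E G x z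
    · exact ⟨cline E G z, Or.inl ⟨z, hz, h, rfl⟩, mem_cline.2 (Rel.refl E G z)⟩
    · push Not at h
      obtain ⟨l, x, hx, hx0, a, b, hab⟩ := h
      refine ⟨_, Or.inr ⟨l, a, b, ?_, rfl⟩, ?_⟩
      · rintro ⟨rfl, rfl⟩
        apply hz
        rw [hab]
        simp [mulJ_apply]
      · exact ⟨x, hx, hab.symm⟩
  · intro A hA B hB hne
    rw [Submodule.disjoint_def]
    intro w hwA hwB
    by_contra hw
    apply hne
    rcases hA with ⟨z, hz, hzt, rfl⟩ | ⟨l, a, b, hab, rfl⟩
    · rw [mem_cline] at hwA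
      rcases hB with ⟨z', hz', hzt', rfl⟩ | ⟨m, c, d, hcd, rfl⟩
      · rw [mem_cline] at hwB
        rw [cline_eq h0 hw hwA, cline_eq h0 hw hwB]
      · obtain ⟨x, hx, rfl⟩ := hwB
        exfalso
        have hx0 : x ≠ 0 := by
          rintro rfl
          simp at hw
        have hR : Rel E G x (mulJ E G c d x) := ⟨c, d, rfl⟩
        exact hzt m x hx hx0 (hR.trans (hwA.symm h0 hw))
    · obtain ⟨x, hx, rfl⟩ := hwA
      have hx0 : x ≠ 0 := by
        rintro rfl
        simp at hw
      have hR : Rel E G x (mulJ E G a b x) := ⟨a, b, rfl⟩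
      rcases hB with ⟨z', hz', hzt', rfl⟩ | ⟨m, c, d, hcd, rfl⟩
      · rw [mem_cline] at hwB
        exfalso
        exact hzt' l x hx hx0 (hR.trans (hwB.symm h0 hw))
      · obtain ⟨y, hy, hyw⟩ := hwB
        have hy0 : y ≠ 0 := by
          rintro rfl
          rw [map_zero] at hyw
          exact hw hyw.symm
        have hR' : Rel E G y (mulJ E G a b x) := ⟨c, d, hyw.symm⟩
        have hxy : Rel E G x y := hR.trans (hR'.symm h0 hw)
        have hlm := hpair l m x hx hx0 y hy hy0 hxy
        subst hlm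
        obtain ⟨t, rfl⟩ := dependent_of_form_eq_zero (hE l) hx hy hx0 hxy.form_left
        have ht : t ≠ 0 := by
          rintro rfl
          simp at hy0
        have h1 : a = t * c ∧ b = t * d := by
          by_contra hcon
          have hcon' : ¬ (a - t * c = 0 ∧ b - t * d = 0) := by
            rintro ⟨h1, h2⟩
            exact hcon ⟨sub_eq_zero.1 h1, sub_eq_zero.1 h2⟩
          have := mulJ_injective h0 hcon' (a₁ := x) (a₂ := 0) (by
            rw [map_zero]
            have h3 : mulJ E G c d (t • x) = mulJ E G (t * c) (t * d) x := by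
              rw [mulJ_smul, map_smul]
            have h4 : mulJ E G (a - t * c) (b - t * d) x
                = mulJ E G a b x - mulJ E G (t * c) (t * d) x := by
              simp only [mulJ_apply]
              module
            rw [h4, ← h3, hyw, sub_self])
          exact hx0 this
        obtain ⟨rfl, rfl⟩ := h1
        ext w
        constructor
        · rintro ⟨x', hx', rfl⟩
          refine ⟨t • x', Submodule.smul_mem _ _ hx', ?_⟩
          rw [mulJ_smul, map_smul]
        · rintro ⟨x', hx', rfl⟩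
          refine ⟨t⁻¹ • x', Submodule.smul_mem _ _ hx', ?_⟩
          rw [mulJ_smul, map_smul, smul_smul, mul_inv_cancel₀ ht, one_smul]

theorem span_mem_dspread {L : Type*} {E G : Fin 6 → F} {u v : L → Fin 4 → F} (l : L) :
    Submodule.span F {u l, v l} ∈ dspread E G u v := by
  refine Or.inr ⟨l, 1, 0, by simp, ?_⟩
  have : mulJ E G 1 0 = LinearMap.id := by
    simp [mulJ]
  rw [this, Submodule.map_id]

end field

end Pool.Agent.Helper41.Levi
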