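import Pool.Agent.Helper41.Levi.Defs

/-!
# The projective plane of a spread
-/

namespace Pool.Agent.Helper41.Levi

variable {F V : Type} [Field F] [AddCommGroup V] [Module F V]

/-- Points of the translation plane: vectors and the members of the spread (at infinity). -/
abbrev Pt (S : Set (Submodule F V)) : Type := V ⊕ S

/-- Lines of the translation plane: cosets of the members and the line at infinity. -/
abbrev Ln (S : Set (Submodule F V)) : Type := (Σ A : S, V ⧸ (A : Submodule F V)) ⊕ Unit

/-- Incidence of the translation plane. -/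
def Inc (S : Set (Submodule F V)) : Pt S → Ln S → Prop
  | .inl v, .inl l => Submodule.Quotient.mk v = l.2
  | .inr A, .inl l => A = l.1
  | .inl _, .inr _ => False
  | .inr _, .inr _ => True

/-- The line `v + A`. -/
def lineOf (S : Set (Submodule F V)) (A : S) (v : V) : Ln S :=
  .inl ⟨A, Submodule.Quotient.mk v⟩

theorem inc_lineOf (S : Set (Submodule F V)) (A : S) (v w : V) :
    Inc S (.inl w) (lineOf S A v) ↔ w - v ∈ (A : Submodule F V) := by
  simp only [Inc, lineOf]
  exact Submodule.Quotient.eq _

theorem IsSpread.eq_of_mem {S : Set (Submodule F V)} (hS : IsSpread S) {A B : Submodule F V}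
    (hA : A ∈ S) (hB : B ∈ S) {v : V} (hv : v ≠ 0) (h1 : v ∈ A) (h2 : v ∈ B) : A = B := by
  by_contra hne
  have := hS.disj A hA B hB hne
  rw [Submodule.disjoint_def] at this
  exact hv (this v h1 h2)

theorem IsSpread.sup_eq {S : Set (Submodule F V)} (hS : IsSpread S)
    (hV : Module.finrank F V = 4) {A B : Submodule F V}
    (hA : A ∈ S) (hB : B ∈ S) (hne : A ≠ B) : A ⊔ B = ⊤ := by
  have : FiniteDimensional F V := Module.finite_of_finrank_pos (by omega)
  apply Submodule.eq_top_of_finrank_eq
  have h1 := Submodule.finrank_sup_add_finrank_inf_eq A B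
  have h2 : A ⊓ B = ⊥ := (hS.disj A hA B hB hne).eq_bot
  rw [h2, finrank_bot, hS.rank A hA, hS.rank B hB] at h1
  omega

theorem IsSpread.exists_pair {S : Set (Submodule F V)} (hS : IsSpread S)
    (hV : Module.finrank F V = 4) :
    ∃ A ∈ S, ∃ B ∈ S, A ≠ B ∧ (∃ x ∈ A, x ≠ 0) ∧ (∃ y ∈ B, y ≠ 0) := by
  have : FiniteDimensional F V := Module.finite_of_finrank_pos (by omega)
  have : Nontrivial V := Module.nontrivial_of_finrank_pos (R := F) (by omega)
  obtain ⟨x, hx⟩ := exists_ne (0 : V)
  obtain ⟨A, hA, hxA⟩ := hS.cover x hx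
  have hAtop : A ≠ ⊤ := by
    intro h
    have := hS.rank A hA
    rw [h, finrank_top] at this
    omega
  obtain ⟨y, hy⟩ : ∃ y, y ∉ A := by
    by_contra hcon
    push Not at hcon
    exact hAtop (Submodule.eq_top_iff'.2 hcon)
  have hy0 : y ≠ 0 := by
    rintro rfl
    exact hy A.zero_mem
  obtain ⟨B, hB, hyB⟩ := hS.cover y hy0
  refine ⟨A, hA, B, hB, ?_, ⟨x, hxA, hx⟩, ⟨y, hyB, hy0⟩⟩
  rintro rfl
  exact hy hyB

theorem three_of_four {P : Fin 4 → Prop} (h012 : ¬ (P 0 ∧ P 1 ∧ P 2))
    (h013 : ¬ (P 0 ∧ P 1 ∧ P 3)) (h023 : ¬ (P 0 ∧ P 2 ∧ P 3)) (h123 : ¬ (P 1 ∧ P 2 ∧ P 3)) :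
    ∀ i j k : Fin 4, i ≠ j → j ≠ k → i ≠ k → ¬ (P i ∧ P j ∧ P k) := by
  intro i j k
  fin_cases i <;> fin_cases j <;> fin_cases k <;> simp <;> tauto

theorem isProjPlane_of_isSpread {S : Set (Submodule F V)} (hS : IsSpread S)
    (hV : Module.finrank F V = 4) : IsProjPlane (Inc S) := by
  refine ⟨?_, ?_, ?_⟩
  · -- two points
    rintro (v | A) (w | B) hne
    · have hvw : v - w ≠ 0 := by
        intro h
        apply hne
        rw [sub_eq_zero.1 h]
      obtain ⟨A, hA, hvA⟩ := hS.cover _ hvw
      refine ⟨.inl ⟨⟨A, hA⟩, Submodule.Quotient.mk v⟩, ⟨rfl, ?_⟩, ?_⟩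
      · show Submodule.Quotient.mk w = Submodule.Quotient.mk v
        rw [Submodule.Quotient.eq]
        have := A.neg_mem hvA
        rwa [neg_sub] at this
      · rintro (⟨⟨B, hB⟩, c⟩ | u) ⟨h1, h2⟩
        · simp only [Inc] at h1 h2
          have h3 : v - w ∈ B := by
            rw [← Submodule.Quotient.eq, h1, h2]
          have h4 : A = B := hS.eq_of_mem hA hB hvw hvA h3
          subst h4
          rw [← h1]
        · exact h1.elim
    · refine ⟨.inl ⟨B, Submodule.Quotient.mk v⟩, ⟨rfl, rfl⟩, ?_⟩
      rintro (⟨C, c⟩ | u) ⟨h1, h2⟩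
      · simp only [Inc] at h1 h2
        subst h2
        rw [← h1]
      · exact h1.elim
    · refine ⟨.inl ⟨A, Submodule.Quotient.mk w⟩, ⟨rfl, rfl⟩, ?_⟩
      rintro (⟨C, c⟩ | u) ⟨h1, h2⟩
      · simp only [Inc] at h1 h2
        subst h1
        rw [← h2]
      · exact h2.elim
    · refine ⟨.inr (), ⟨trivial, trivial⟩, ?_⟩
      rintro (⟨C, c⟩ | u) ⟨h1, h2⟩
      · simp only [Inc] at h1 h2
        exact absurd (by rw [h1, h2]) hne
      · rfl
  · -- two lines
    rintro (⟨A, a⟩ | u) (⟨B, b⟩ | u') hne
    · obtain ⟨v, rfl⟩ := Submodule.Quotient.mk_surjective _ a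
      obtain ⟨w, rfl⟩ := Submodule.Quotient.mk_surjective _ b
      by_cases hAB : A = B
      · subst hAB
        refine ⟨.inr A, ⟨rfl, rfl⟩, ?_⟩
        rintro (x | C) ⟨h1, h2⟩
        · simp only [Inc] at h1 h2
          exact absurd (by rw [← h1, ← h2]) hne
        · simp only [Inc] at h1
          rw [h1]
      · have hAB' : (A : Submodule F V) ≠ B := fun h => hAB (Subtype.ext h)
        have hsup := hS.sup_eq hV A.2 B.2 hAB'
        obtain ⟨y, hy, z, hz, hyz⟩ := Submodule.mem_sup.1
          (show w - v ∈ (A : Submodule F V) ⊔ B by rw [hsup]; trivial)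
        refine ⟨.inl (v + y), ⟨?_, ?_⟩, ?_⟩
        · show Submodule.Quotient.mk (v + y) = Submodule.Quotient.mk v
          rw [Submodule.Quotient.eq]
          simpa using hy
        · show Submodule.Quotient.mk (v + y) = Submodule.Quotient.mk w
          rw [Submodule.Quotient.eq]
          have : v + y - w = -z := by
            have : w = v + (y + z) := by rw [hyz]; abel
            rw [this]; abel
          rw [this]
          exact (B : Submodule F V).neg_mem hz
        · rintro (x | C) ⟨h1, h2⟩
          · simp only [Inc] at h1 h2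
            rw [Submodule.Quotient.eq] at h1 h2
            have h3 : x - (v + y) ∈ (A : Submodule F V) := by
              have := (A : Submodule F V).sub_mem h1 hy
              rwa [sub_sub] at this
            have h4 : x - (v + y) ∈ (B : Submodule F V) := by
              have := (B : Submodule F V).add_mem h2 hz
              have h5 : x - w + z = x - (v + y) := by
                have : w = v + (y + z) := by rw [hyz]; abel
                rw [this]; abel
              rwa [h5] at this
            have h5 := (hS.disj _ A.2 _ B.2 hAB')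
            rw [Submodule.disjoint_def] at h5
            have h6 := h5 _ h3 h4
            rw [sub_eq_zero] at h6
            rw [h6]
          · simp only [Inc] at h1 h2
            exact absurd (by rw [← h1, ← h2]) hAB
    · refine ⟨.inr A, ⟨rfl, trivial⟩, ?_⟩
      rintro (x | C) ⟨h1, h2⟩
      · exact h2.elim
      · simp only [Inc] at h1
        rw [h1]
    · refine ⟨.inr B, ⟨trivial, rfl⟩, ?_⟩
      rintro (x | C) ⟨h1, h2⟩
      · exact h1.elim
      · simp only [Inc] at h2
        rw [h2]
    · exact absurd rfl hne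
  · -- four points
    obtain ⟨A, hA, B, hB, hne, ⟨x, hx, hx0⟩, ⟨y, hy, hy0⟩⟩ := hS.exists_pair hV
    have hxy : ∀ C ∈ S, x ∈ C → y ∈ C → False := by
      intro C hC h1 h2
      apply hne
      rw [hS.eq_of_mem hA hC hx0 hx h1, hS.eq_of_mem hB hC hy0 hy h2]
    have hxB : x ∉ B := fun h => hxy B hB h hy
    have hyA : y ∉ A := fun h => hxy A hA hx h
    have hxney : x ≠ y := by
      rintro rfl
      exact hxB hy
    have hxay : x + y ≠ 0 := by
      intro h
      apply hxB
      rw [eq_neg_of_add_eq_zero_left h]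
      exact B.neg_mem hy
    refine ⟨![.inl 0, .inl x, .inl y, .inl (x + y)], ?_, ?_⟩
    · intro i j hij
      fin_cases i <;> fin_cases j <;> simp_all [eq_comm]
    · intro i j k hij hjk hik l
      refine three_of_four (P := fun i => Inc S ((![.inl 0, .inl x, .inl y, .inl (x + y)] :
        Fin 4 → Pt S) i) l) ?_ ?_ ?_ ?_ i j k hij hjk hik
      all_goals
        rcases l with ⟨⟨C, hC⟩, c⟩ | u
        · obtain ⟨w, rfl⟩ := Submodule.Quotient.mk_surjective _ c
          have key : ∀ v : V, Inc S (.inl v) (.inl ⟨⟨C, hC⟩, Submodule.Quotient.mk w⟩) ↔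
              v - w ∈ C := by
            intro v
            simp only [Inc]
            exact Submodule.Quotient.eq _
          rintro ⟨h1, h2, h3⟩
          replace h1 := (key _).1 h1
          replace h2 := (key _).1 h2
          replace h3 := (key _).1 h3
          have hx' : x ∈ C := by
            first
            | simpa using C.sub_mem h2 h1
            | simpa using C.sub_mem h3 h2
          have hy' : y ∈ C := by
            first
            | simpa using C.sub_mem h3 h1
            | simpa using C.sub_mem h3 h2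
            | simpa using C.sub_mem h2 h1
          exact hxy C hC hx' hy'
        · rintro ⟨h1, -, -⟩
          exact h1

end Pool.Agent.Helper41.Levi
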