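import Pool.Agent.Helper41.Levi.Config
import Pool.Agent.Helper41.Levi.Plane

/-!
# The transfer theorem
-/

namespace Pool.Agent.Helper41.Levi

theorem exists_forms {n : ℕ} [Nontrivial (Fin n)] {u v : Fin n → Fin 4 → ℤ}
    (hc : ∀ i j, i ≠ j → det4 (u i) (v i) (u j) (v j) ≠ 0) :
    ∃ E G : Fin 6 → ℤ, (∀ i, form E (u i) (v i) ≠ 0) ∧
      ∀ N : ℕ, ∃ p : ℕ, p.Prime ∧ N < p ∧ ¬ IsSquare ((q0 E G : ℤ) : ZMod p) ∧
        ∀ i j, i ≠ j → ¬ IsSquare ((qe (u i) (v i) (u j) (v j) E G : ℤ) : ZMod p) := by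
  obtain ⟨E, hE⟩ := exists_goodE (fun i => exists_ne i) hc
  obtain ⟨W0, w0, hW0, hb0, hWq⟩ := exists_W0 (exists_pair_ne _) hc hE
  have hV : ∀ x : {x : Fin n × Fin n // x.1 < x.2}, _ :=
    fun x => exists_Ve hc hE (ne_of_lt x.2)
  choose V w hV1 hV2 hV3 hV4 using hV
  let q : Option {x : Fin n × Fin n // x.1 < x.2} → (Fin 6 → ℤ) → ℤ := fun o F =>
    match o with
    | none => q0 E F
    | some x => qe (u x.1.1) (v x.1.1) (u x.1.2) (v x.1.2) E F
  let vv : Option {x : Fin n × Fin n // x.1 < x.2} → Fin 6 → ℤ := fun o =>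
    match o with
    | none => W0
    | some x => V x
  let ww : Option {x : Fin n × Fin n // x.1 < x.2} → Fin 6 → ℤ := fun o =>
    match o with
    | none => w0
    | some x => w x
  obtain ⟨G, hG⟩ := exists_vector q
    (by
      intro o x y M h
      rcases o with _ | o
      · have h1 : (Ideal.Quotient.mk (Ideal.span {M})) (q0 E x)
            = (Ideal.Quotient.mk (Ideal.span {M})) (q0 E y) := by
          rw [map_q0, map_q0]
          congr 1
          ext k
          rw [Ideal.Quotient.eq, Ideal.mem_span_singleton]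
          exact h k
        rwa [Ideal.Quotient.eq, Ideal.mem_span_singleton] at h1
      · have h1 : (Ideal.Quotient.mk (Ideal.span {M})) (q (some o) x)
            = (Ideal.Quotient.mk (Ideal.span {M})) (q (some o) y) := by
          show (Ideal.Quotient.mk (Ideal.span {M})) (qe _ _ _ _ E x)
            = (Ideal.Quotient.mk (Ideal.span {M})) (qe _ _ _ _ E y)
          rw [map_qe, map_qe]
          congr 1
          ext k
          rw [Ideal.Quotient.eq, Ideal.mem_span_singleton]
          exact h k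
        rwa [Ideal.Quotient.eq, Ideal.mem_span_singleton] at h1)
    vv ww
    (fun o => match o with
      | none => 2 * pfm E W0 * pfm E w0 - 4 * pf E * pfm W0 w0
      | some x => 2 * mixe (u x.1.1) (v x.1.1) (u x.1.2) (v x.1.2) E (V x)
          * mixe (u x.1.1) (v x.1.1) (u x.1.2) (v x.1.2) E (w x)
        - 4 * dete (u x.1.1) (v x.1.1) (u x.1.2) (v x.1.2) E
          * mixe (u x.1.1) (v x.1.1) (u x.1.2) (v x.1.2) (V x) (w x))
    (fun o => q o (ww o))
    (by
      rintro (_ | x)
      · exact hb0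
      · exact hV2 x)
    (by
      rintro (_ | x) s
      · show q0 E (fun k => W0 k + s * w0 k) = _
        rw [q0_add_mul, hW0, zero_add]
      · show qe _ _ _ _ E (fun k => V x k + s * w x k) = _
        rw [qe_add_mul, hV1, zero_add])
    (by
      rintro (_ | ⟨⟨i, j⟩, hij⟩) (_ | ⟨⟨k, l⟩, hkl⟩) hne
      · exact absurd rfl hne
      · exact hWq k l (ne_of_lt hkl)
      · exact hV3 ⟨(i, j), hij⟩
      · refine hV4 ⟨(i, j), hij⟩ k l (ne_of_lt hkl) ?_
        simp only at hij hkl ⊢
        by_cases hik : i = k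
        · subst hik
          right
          refine ⟨(ne_of_lt hij).symm, ?_⟩
          rintro rfl
          exact hne rfl
        · by_cases hil : i = l
          · subst hil
            right
            exact ⟨(ne_of_lt (hkl.trans hij)).symm, (ne_of_lt hij).symm⟩
          · left
            exact ⟨hik, hil⟩)
  refine ⟨E, G, hE.e2, fun N => ?_⟩
  obtain ⟨p, hp, hpN, hsq⟩ := hG N
  refine ⟨p, hp, hpN, hsq none, ?_⟩
  intro i j hij
  rcases lt_or_gt_of_ne hij with h | h
  · exact hsq (some ⟨(i, j), h⟩)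
  · rw [← qe_swap]
    exact hsq (some ⟨(j, i), h⟩)

theorem small_eq_zero {p : ℕ} {t : ℤ} (h : t.natAbs < p) (h' : ((t : ℤ) : ZMod p) = 0) : t = 0 := by
  rw [ZMod.intCast_zmod_eq_zero_iff_dvd] at h'
  by_contra hne
  have := Nat.le_of_dvd (Int.natAbs_pos.2 hne) (Int.natCast_dvd.1 h')
  omega

/-- Every configuration realised over `ℤ` by pairwise complementary planes of 4-space embeds in
a finite projective plane. -/
theorem embed_of_realization {P : Type*} [Finite P] {n : ℕ} [Nontrivial (Fin n)]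
    (inc : P → Fin n → Prop) (z : P → Fin 4 → ℤ) (hz : Function.Injective z)
    (o u v : Fin n → Fin 4 → ℤ)
    (hc : ∀ i j, i ≠ j → det4 (u i) (v i) (u j) (v j) ≠ 0)
    (hinc : ∀ p i, inc p i → ∃ a b : ℤ, ∀ k, z p k = o i k + a * u i k + b * v i k) :
    ∃ (P' L' : Type) (_ : Finite P') (_ : Finite L') (I : P' → L' → Prop), IsProjPlane I ∧
      ∃ (f : P → P') (g : Fin n → L'), Function.Injective f ∧ Function.Injective g ∧
        ∀ p i, inc p i → I (f p) (g i) := by
  classical
  have := Fintype.ofFinite P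
  obtain ⟨E, G, hE, hG⟩ := exists_forms hc
  set N : ℕ := ∑ i, (form E (u i) (v i)).natAbs
    + ∑ p : P, ∑ q : P, ∑ k : Fin 4, (z p k - z q k).natAbs with hN
  obtain ⟨p, hp, hpN, h0, hq⟩ := hG N
  have : Fact p.Prime := ⟨hp⟩
  let φ : ℤ →+* ZMod p := Int.castRingHom (ZMod p)
  set E' : Fin 6 → ZMod p := fun k => φ (E k) with hE'
  set G' : Fin 6 → ZMod p := fun k => φ (G k) with hG'
  set u' : Fin n → Fin 4 → ZMod p := fun i k => φ (u i k) with hu'
  set v' : Fin n → Fin 4 → ZMod p := fun i k => φ (v i k) with hv'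
  have h0' : ¬ IsSquare (q0 E' G') := by
    rw [← map_q0]
    exact h0
  have hq' : ∀ i j, i ≠ j → ¬ IsSquare (qe (u' i) (v' i) (u' j) (v' j) E' G') := by
    intro i j hij
    rw [← map_qe]
    exact hq i j hij
  have hEf : ∀ i, form E' (u' i) (v' i) ≠ 0 := by
    intro i
    rw [← map_form]
    intro h
    apply hE i
    apply small_eq_zero (p := p) _ h
    have : (form E (u i) (v i)).natAbs ≤ ∑ i, (form E (u i) (v i)).natAbs :=
      Finset.single_le_sum (f := fun i => (form E (u i) (v i)).natAbs) (fun _ _ => Nat.zero_le _)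
        (Finset.mem_univ i)
    omega
  have hS := isSpread_dspread h0' hq' hEf
  set S := dspread E' G' u' v' with hSdef
  have hfr : Module.finrank (ZMod p) (Fin 4 → ZMod p) = 4 := by simp
  have hfinS : Finite (Submodule (ZMod p) (Fin 4 → ZMod p)) :=
    Finite.of_injective (fun A => (A : Set (Fin 4 → ZMod p))) SetLike.coe_injective
  refine ⟨Pt S, Ln S, inferInstance, inferInstance, Inc S, isProjPlane_of_isSpread hS hfr,
    fun q => .inl (fun k => φ (z q k)),
    fun i => lineOf S ⟨_, span_mem_dspread i⟩ (fun k => φ (o i k)), ?_, ?_, ?_⟩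
  · intro a b hab
    have hab' : (fun k => φ (z a k)) = fun k => φ (z b k) := Sum.inl_injective hab
    apply hz
    ext k
    have h1 : φ (z a k) = φ (z b k) := congrFun hab' k
    have h2 : ((z a k - z b k : ℤ) : ZMod p) = 0 := by
      rw [Int.cast_sub]
      exact sub_eq_zero.2 h1
    have h3 : (z a k - z b k).natAbs ≤ N := by
      have e1 : (z a k - z b k).natAbs ≤ ∑ k : Fin 4, (z a k - z b k).natAbs :=
        Finset.single_le_sum (f := fun k => (z a k - z b k).natAbs) (fun _ _ => Nat.zero_le _)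
          (Finset.mem_univ k)
      have e2 : ∑ k : Fin 4, (z a k - z b k).natAbs ≤
          ∑ q : P, ∑ k : Fin 4, (z a k - z q k).natAbs :=
        Finset.single_le_sum (f := fun q => ∑ k : Fin 4, (z a k - z q k).natAbs)
          (fun _ _ => Nat.zero_le _) (Finset.mem_univ b)
      have e3 : ∑ q : P, ∑ k : Fin 4, (z a k - z q k).natAbs ≤
          ∑ p : P, ∑ q : P, ∑ k : Fin 4, (z p k - z q k).natAbs :=
        Finset.single_le_sum (f := fun p => ∑ q : P, ∑ k : Fin 4, (z p k - z q k).natAbs)
          (fun _ _ => Nat.zero_le _) (Finset.mem_univ a)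
      omega
    have h4 := small_eq_zero (lt_of_le_of_lt h3 hpN) h2
    linarith
  · intro i j hij
    by_contra hne
    have h1 : (⟨⟨_, span_mem_dspread i⟩, Submodule.Quotient.mk (fun k => φ (o i k))⟩ :
        Σ A : S, (Fin 4 → ZMod p) ⧸ (A : Submodule (ZMod p) (Fin 4 → ZMod p)))
        = ⟨⟨_, span_mem_dspread j⟩, Submodule.Quotient.mk (fun k => φ (o j k))⟩ :=
      Sum.inl_injective hij
    have h2 := congrArg (fun x => (x.1 : Submodule (ZMod p) (Fin 4 → ZMod p))) h1
    simp only at h2
    have h3 : u' i ∈ Submodule.span (ZMod p) {u' j, v' j} := by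
      rw [← h2]
      exact Submodule.subset_span (by simp)
    rw [Submodule.mem_span_pair] at h3
    obtain ⟨a, b, hab⟩ := h3
    apply hq' i j hne
    refine isSquare_qe (a := 1) (b := 0) (c := a) (d := b) (by simp) ?_ ?_ ?_
    · rintro ⟨rfl, rfl⟩
      apply hEf i
      rw [← hab]
      simp [form]
    · rw [hab]
      simp [form_self]
    · rw [hab]
      simp [form_self]
  · intro q i hqi
    obtain ⟨a, b, hab⟩ := hinc q i hqi
    rw [inc_lineOf]
    rw [Submodule.mem_span_pair]
    refine ⟨φ a, φ b, ?_⟩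
    ext k
    simp only [Pi.add_apply, Pi.smul_apply, Pi.sub_apply, smul_eq_mul]
    rw [hab k]
    simp only [map_add, map_mul, hu', hv']
    ring

end Pool.Agent.Helper41.Levi
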