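import Pool.Agent.Helper41.Levi.PlaneDef

/-!
# From incidence structures to graphs
-/

namespace Pool.Agent.Helper41.Levi

/-- The linearity condition coming from the absence of 4-cycles. -/
theorem linear_of_free {V : Type*} {G : SimpleGraph V} (hC4 : (SimpleGraph.cycleGraph 4).Free G)
    {p q l m : V} (hpq : p ≠ q) (hlm : l ≠ m) (h1 : G.Adj p l) (h2 : G.Adj q l)
    (h3 : G.Adj p m) (h4 : G.Adj q m) : False := by
  apply hC4
  refine ⟨⟨⟨![p, l, q, m], ?_⟩, ?_⟩⟩
  · intro i j hij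
    have key : ∀ i j : Fin 4, (SimpleGraph.cycleGraph 4).Adj i j →
        (i = 0 ∧ j = 1) ∨ (i = 1 ∧ j = 0) ∨ (i = 1 ∧ j = 2) ∨ (i = 2 ∧ j = 1) ∨
        (i = 2 ∧ j = 3) ∨ (i = 3 ∧ j = 2) ∨ (i = 3 ∧ j = 0) ∨ (i = 0 ∧ j = 3) := by
      decide
    rcases key i j hij with ⟨rfl, rfl⟩ | ⟨rfl, rfl⟩ | ⟨rfl, rfl⟩ | ⟨rfl, rfl⟩ | ⟨rfl, rfl⟩ |
      ⟨rfl, rfl⟩ | ⟨rfl, rfl⟩ | ⟨rfl, rfl⟩
    · exact h1
    · exact h1.symm
    · exact h2.symm
    · exact h2
    · exact h4
    · exact h4.symm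
    · exact h3.symm
    · exact h3
  · have e1 := h1.ne
    have e2 := h2.ne
    have e3 := h3.ne
    have e4 := h4.ne
    intro i j hij
    fin_cases i <;> fin_cases j <;> first
      | rfl
      | exact absurd hij hpq
      | exact absurd hij hpq.symm
      | exact absurd hij hlm
      | exact absurd hij hlm.symm
      | exact absurd hij e1
      | exact absurd hij e1.symm
      | exact absurd hij e2
      | exact absurd hij e2.symm
      | exact absurd hij e3
      | exact absurd hij e3.symm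
      | exact absurd hij e4
      | exact absurd hij e4.symm

/-- Embedding of a bipartite graph from an embedding of its incidence structure. -/
theorem isContained_of_maps {V : Type*} {G : SimpleGraph V} (A : Set V)
    (hA : ∀ v w, G.Adj v w → (v ∈ A ↔ w ∉ A)) {P L : Type*} {I : P → L → Prop}
    (f : {v // v ∉ A} → P) (g : {v // v ∈ A} → L) (hf : Function.Injective f)
    (hg : Function.Injective g) (h : ∀ p l, G.Adj p.1 l.1 → I (f p) (g l)) :
    G.IsContained (leviGraph I) := by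
  classical
  refine ⟨⟨⟨fun v => if hv : v ∈ A then .inr (g ⟨v, hv⟩) else .inl (f ⟨v, hv⟩), ?_⟩, ?_⟩⟩
  · intro v w hvw
    by_cases hv : v ∈ A
    · have hw : w ∉ A := (hA v w hvw).1 hv
      simp only [dif_pos hv, dif_neg hw]
      exact Or.inr ⟨_, _, rfl, rfl, h ⟨w, hw⟩ ⟨v, hv⟩ hvw.symm⟩
    · have hw : w ∈ A := by
        by_contra hw
        exact hv ((hA v w hvw).2 hw)
      simp only [dif_neg hv, dif_pos hw]
      exact Or.inl ⟨_, _, rfl, rfl, h ⟨v, hv⟩ ⟨w, hw⟩ hvw⟩
  · intro v w hvw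
    simp only [RelHom.coeFn_mk] at hvw
    by_cases hv : v ∈ A <;> by_cases hw : w ∈ A
    · simp only [dif_pos hv, dif_pos hw, Sum.inr.injEq] at hvw
      exact congrArg Subtype.val (hg hvw)
    · simp [dif_pos hv, dif_neg hw] at hvw
    · simp [dif_neg hv, dif_pos hw] at hvw
    · simp only [dif_neg hv, dif_neg hw, Sum.inl.injEq] at hvw
      exact congrArg Subtype.val (hf hvw)

end Pool.Agent.Helper41.Levi
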