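import Pool.Agent.Helper41.Levi.Derive

/-!
# Identities for forms
-/

namespace Pool.Agent.Helper41.Levi

variable {R : Type*} [CommRing R]

theorem map_form {S : Type*} [CommRing S] (φ : R →+* S) (A : Fin 6 → R) (x y : Fin 4 → R) :
    φ (form A x y) = form (fun k => φ (A k)) (fun k => φ (x k)) (fun k => φ (y k)) := by
  simp only [form, map_add, map_sub, map_mul]

theorem map_pf {S : Type*} [CommRing S] (φ : R →+* S) (A : Fin 6 → R) :
    φ (pf A) = pf (fun k => φ (A k)) := by
  simp only [pf, map_add, map_sub, map_mul]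

theorem map_pfm {S : Type*} [CommRing S] (φ : R →+* S) (A B : Fin 6 → R) :
    φ (pfm A B) = pfm (fun k => φ (A k)) (fun k => φ (B k)) := by
  simp only [pfm, map_add, map_sub, map_mul]

theorem map_dete {S : Type*} [CommRing S] (φ : R →+* S) (u v u' v' : Fin 4 → R)
    (A : Fin 6 → R) : φ (dete u v u' v' A) =
      dete (fun k => φ (u k)) (fun k => φ (v k)) (fun k => φ (u' k)) (fun k => φ (v' k))
        (fun k => φ (A k)) := by
  simp only [dete, map_sub, map_mul, map_form]

theorem map_mixe {S : Type*} [CommRing S] (φ : R →+* S) (u v u' v' : Fin 4 → R)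
    (A B : Fin 6 → R) : φ (mixe u v u' v' A B) =
      mixe (fun k => φ (u k)) (fun k => φ (v k)) (fun k => φ (u' k)) (fun k => φ (v' k))
        (fun k => φ (A k)) (fun k => φ (B k)) := by
  simp only [mixe, map_sub, map_add, map_mul, map_form]

theorem map_q0 {S : Type*} [CommRing S] (φ : R →+* S) (E F : Fin 6 → R) :
    φ (q0 E F) = q0 (fun k => φ (E k)) (fun k => φ (F k)) := by
  simp only [q0, map_sub, map_mul, map_pow, map_pf, map_pfm, map_ofNat]

theorem map_qe {S : Type*} [CommRing S] (φ : R →+* S) (u v u' v' : Fin 4 → R)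
    (E F : Fin 6 → R) : φ (qe u v u' v' E F) =
      qe (fun k => φ (u k)) (fun k => φ (v k)) (fun k => φ (u' k)) (fun k => φ (v' k))
        (fun k => φ (E k)) (fun k => φ (F k)) := by
  simp only [qe, map_sub, map_mul, map_pow, map_dete, map_mixe, map_ofNat]

theorem pf_star (x y : Fin 4 → R) : pf (star x y) = 0 := by
  simp [pf, star]
  ring

theorem pfm_star (A : Fin 6 → R) (x y : Fin 4 → R) : pfm A (star x y) = form A x y := by
  simp [pfm, star, form]
  ring

theorem pfm_comm (A B : Fin 6 → R) : pfm A B = pfm B A := by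
  simp only [pfm]
  ring

theorem pfm_star' (A : Fin 6 → R) (x y : Fin 4 → R) : pfm (star x y) A = form A x y := by
  rw [pfm_comm, pfm_star]

theorem dete_eq (u v u' v' : Fin 4 → R) (A : Fin 6 → R) :
    dete u v u' v' A = form A u v * form A u' v' - pf A * det4 u v u' v' := by
  simp [dete, form, pf, det4, star]
  ring

theorem mixe_eq (u v u' v' : Fin 4 → R) (A B : Fin 6 → R) :
    mixe u v u' v' A B = form A u v * form B u' v' + form B u v * form A u' v'
      - pfm A B * det4 u v u' v' := by
  simp [mixe, form, pfm, det4, star]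
  ring

theorem form_star (a b x y : Fin 4 → R) : form (star a b) x y = det4 a b x y := rfl

theorem det4_self_left (a b y : Fin 4 → R) : det4 a b a y = 0 := by
  simp [det4, form, star]
  ring

theorem det4_self_mid (a b y : Fin 4 → R) : det4 a b b y = 0 := by
  simp [det4, form, star]
  ring

theorem det4_self_right (a b y : Fin 4 → R) : det4 a b y b = 0 := by
  simp [det4, form, star]
  ring

theorem det4_swap (a b x y : Fin 4 → R) : det4 x y a b = det4 a b x y := by
  simp [det4, form, star]
  ring

theorem mixe_comm (u v u' v' : Fin 4 → R) (A B : Fin 6 → R) :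
    mixe u v u' v' A B = mixe u v u' v' B A := by
  simp only [mixe]
  ring

theorem dete_swap (u v u' v' : Fin 4 → R) (A : Fin 6 → R) :
    dete u' v' u v A = dete u v u' v' A := by
  simp only [dete, form_swap A u u', form_swap A v v', form_swap A u v', form_swap A v u']
  ring

theorem mixe_swap (u v u' v' : Fin 4 → R) (A B : Fin 6 → R) :
    mixe u' v' u v A B = mixe u v u' v' A B := by
  simp only [mixe, form_swap A u u', form_swap A v v', form_swap A u v', form_swap A v u',
    form_swap B u u', form_swap B v v', form_swap B u v', form_swap B v u']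
  ring

theorem qe_swap (u v u' v' : Fin 4 → R) (E F : Fin 6 → R) :
    qe u' v' u v E F = qe u v u' v' E F := by
  simp only [qe, dete_swap u v u' v', mixe_swap u v u' v']

theorem form_add_mul (A B : Fin 6 → R) (s : R) (x y : Fin 4 → R) :
    form (fun k => A k + s * B k) x y = form A x y + s * form B x y := by
  simp only [form]
  ring

theorem pf_add_mul (A B : Fin 6 → R) (s : R) :
    pf (fun k => A k + s * B k) = pf A + s * pfm A B + s ^ 2 * pf B := by
  simp only [pf, pfm]
  ring

theorem pfm_add_mul (E A B : Fin 6 → R) (s : R) :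
    pfm E (fun k => A k + s * B k) = pfm E A + s * pfm E B := by
  simp only [pfm]
  ring

theorem dete_add_mul (u v u' v' : Fin 4 → R) (A B : Fin 6 → R) (s : R) :
    dete u v u' v' (fun k => A k + s * B k) =
      dete u v u' v' A + s * mixe u v u' v' A B + s ^ 2 * dete u v u' v' B := by
  simp only [dete, mixe, form_add_mul]
  ring

theorem mixe_add_mul (u v u' v' : Fin 4 → R) (E A B : Fin 6 → R) (s : R) :
    mixe u v u' v' E (fun k => A k + s * B k) =
      mixe u v u' v' E A + s * mixe u v u' v' E B := by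
  simp only [mixe, form_add_mul]
  ring

theorem q0_add_mul (E A B : Fin 6 → R) (s : R) :
    q0 E (fun k => A k + s * B k) =
      q0 E A + s * (2 * pfm E A * pfm E B - 4 * pf E * pfm A B) + s ^ 2 * q0 E B := by
  simp only [q0, pf_add_mul, pfm_add_mul]
  ring

theorem qe_add_mul (u v u' v' : Fin 4 → R) (E A B : Fin 6 → R) (s : R) :
    qe u v u' v' E (fun k => A k + s * B k) =
      qe u v u' v' E A + s * (2 * mixe u v u' v' E A * mixe u v u' v' E B
        - 4 * dete u v u' v' E * mixe u v u' v' A B) + s ^ 2 * qe u v u' v' E B := by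
  simp only [qe, dete_add_mul, mixe_add_mul]
  ring

/-- The form `star u v` is in the radical for pairs containing `⟨u,v⟩`. -/
theorem mixe_star_left (u v u' v' : Fin 4 → R) (B : Fin 6 → R) :
    mixe u v u' v' B (star u v) = 0 := by
  rw [mixe_eq, form_star, form_star, det4_self_left, pfm_star]
  ring

theorem mixe_star_right (u v u' v' : Fin 4 → R) (B : Fin 6 → R) :
    mixe u v u' v' B (star u' v') = 0 := by
  rw [mixe_eq, form_star, form_star, det4_self_left, pfm_star, det4_swap]
  ring

theorem dete_star (u v u' v' a b : Fin 4 → R) :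
    dete u v u' v' (star a b) = det4 a b u v * det4 a b u' v' := by
  rw [dete_eq, pf_star, form_star, form_star]
  ring

theorem exists_pfm_ne {W : Fin 6 → ℤ} (h : W ≠ 0) : ∃ w : Fin 6 → ℤ, pfm W w ≠ 0 := by
  refine ⟨![W 5, -W 4, W 3, W 2, -W 1, W 0], ?_⟩
  intro h0
  apply h
  simp [pfm] at h0
  have h1 : W 0 = 0 := by nlinarith [sq_nonneg (W 0), sq_nonneg (W 1), sq_nonneg (W 2), sq_nonneg (W 3), sq_nonneg (W 4), sq_nonneg (W 5)]
  have h2 : W 1 = 0 := by nlinarith [sq_nonneg (W 0), sq_nonneg (W 1), sq_nonneg (W 2), sq_nonneg (W 3), sq_nonneg (W 4), sq_nonneg (W 5)]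
  have h3 : W 2 = 0 := by nlinarith [sq_nonneg (W 0), sq_nonneg (W 1), sq_nonneg (W 2), sq_nonneg (W 3), sq_nonneg (W 4), sq_nonneg (W 5)]
  have h4 : W 3 = 0 := by nlinarith [sq_nonneg (W 0), sq_nonneg (W 1), sq_nonneg (W 2), sq_nonneg (W 3), sq_nonneg (W 4), sq_nonneg (W 5)]
  have h5 : W 4 = 0 := by nlinarith [sq_nonneg (W 0), sq_nonneg (W 1), sq_nonneg (W 2), sq_nonneg (W 3), sq_nonneg (W 4), sq_nonneg (W 5)]
  have h6 : W 5 = 0 := by nlinarith [sq_nonneg (W 0), sq_nonneg (W 1), sq_nonneg (W 2), sq_nonneg (W 3), sq_nonneg (W 4), sq_nonneg (W 5)]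
  ext k
  fin_cases k <;> assumption

end Pool.Agent.Helper41.Levi
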