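import Pool.Agent.Helper41.Levi.Ident

/-!
# Functions that are polynomial along lines, and common non-zeros
-/

namespace Pool.Agent.Helper41.Levi

open Polynomial

/-- `g` is polynomial along all integral lines. -/
def PL {A : Type*} [AddCommGroup A] (g : A → ℤ) : Prop :=
  ∀ X D : A, ∃ P : ℤ[X], ∀ s : ℤ, g (X + s • D) = P.eval s

section

variable {A : Type*} [AddCommGroup A]

theorem PL.const (c : ℤ) : PL (fun _ : A => c) := fun _ _ => ⟨C c, by simp⟩

theorem PL.add {f g : A → ℤ} (hf : PL f) (hg : PL g) : PL (fun x => f x + g x) := by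
  intro X D
  obtain ⟨P, hP⟩ := hf X D
  obtain ⟨Q, hQ⟩ := hg X D
  exact ⟨P + Q, by simp [hP, hQ]⟩

theorem PL.sub {f g : A → ℤ} (hf : PL f) (hg : PL g) : PL (fun x => f x - g x) := by
  intro X D
  obtain ⟨P, hP⟩ := hf X D
  obtain ⟨Q, hQ⟩ := hg X D
  exact ⟨P - Q, by simp [hP, hQ]⟩

theorem PL.neg {f : A → ℤ} (hf : PL f) : PL (fun x => - f x) := by
  intro X D
  obtain ⟨P, hP⟩ := hf X D
  exact ⟨-P, by simp [hP]⟩

theorem PL.mul {f g : A → ℤ} (hf : PL f) (hg : PL g) : PL (fun x => f x * g x) := by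
  intro X D
  obtain ⟨P, hP⟩ := hf X D
  obtain ⟨Q, hQ⟩ := hg X D
  exact ⟨P * Q, by simp [hP, hQ]⟩

theorem PL.hom (f : A →+ ℤ) : PL (fun x => f x) := by
  intro X D
  exact ⟨C (f X) + Polynomial.X * C (f D), by simp⟩

theorem PL.exists_common {ι : Type*} [Finite ι] (g : ι → A → ℤ) (hg : ∀ i, PL (g i))
    (hne : ∀ i, ∃ X, g i X ≠ 0) : ∃ X, ∀ i, g i X ≠ 0 := by
  classical
  have := Fintype.ofFinite ι
  suffices h : ∀ s : Finset ι, ∃ X, ∀ i ∈ s, g i X ≠ 0 by
    obtain ⟨X, hX⟩ := h Finset.univ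
    exact ⟨X, fun i => hX i (Finset.mem_univ i)⟩
  intro s
  induction s using Finset.induction_on with
  | empty => exact ⟨0, by simp⟩
  | insert j s hj ih =>
    obtain ⟨X, hX⟩ := ih
    obtain ⟨Y, hY⟩ := hne j
    have h1 : ∀ i, ∃ P : ℤ[X], ∀ s : ℤ, g i (X + s • (Y - X)) = P.eval s :=
      fun i => hg i X (Y - X)
    choose P hP using h1
    have h2 : ∀ i ∈ insert j s, P i ≠ 0 := by
      intro i hi h0
      rw [Finset.mem_insert] at hi
      rcases hi with rfl | hi
      · have := hP i 1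
        rw [h0, one_smul, add_sub_cancel, eval_zero] at this
        exact hY this
      · have := hP i 0
        rw [h0, zero_smul, add_zero, eval_zero] at this
        exact hX i hi this
    have h3 : ∏ i ∈ insert j s, P i ≠ 0 := Finset.prod_ne_zero_iff.2 h2
    obtain ⟨t, ht⟩ : ∃ t : ℤ, (∏ i ∈ insert j s, P i).eval t ≠ 0 := by
      by_contra hcon
      push Not at hcon
      exact h3 (Polynomial.funext fun t => by rw [hcon t, eval_zero])
    rw [eval_prod, Finset.prod_ne_zero_iff] at ht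
    refine ⟨X + t • (Y - X), fun i hi => ?_⟩
    rw [hP i t]
    exact ht i hi

theorem PL_form {F : A → Fin 6 → ℤ} {x y : A → Fin 4 → ℤ} (hF : ∀ k, PL fun t => F t k)
    (hx : ∀ k, PL fun t => x t k) (hy : ∀ k, PL fun t => y t k) :
    PL fun t => form (F t) (x t) (y t) := by
  unfold form
  repeat' first
    | exact hF _
    | exact hx _
    | exact hy _
    | apply PL.mul
    | apply PL.sub
    | apply PL.neg
    | apply PL.add

theorem PL_pf {F : A → Fin 6 → ℤ} (hF : ∀ k, PL fun t => F t k) : PL fun t => pf (F t) := by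
  unfold pf
  repeat' first
    | exact hF _
    | apply PL.mul
    | apply PL.sub
    | apply PL.neg
    | apply PL.add

theorem PL_pfm {F G : A → Fin 6 → ℤ} (hF : ∀ k, PL fun t => F t k)
    (hG : ∀ k, PL fun t => G t k) : PL fun t => pfm (F t) (G t) := by
  unfold pfm
  repeat' first
    | exact hF _
    | exact hG _
    | apply PL.mul
    | apply PL.sub
    | apply PL.neg
    | apply PL.add

theorem PL_star {x y : A → Fin 4 → ℤ}
    (hx : ∀ k, PL fun t => x t k) (hy : ∀ k, PL fun t => y t k) (k : Fin 6) :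
    PL fun t => star (x t) (y t) k := by
  fin_cases k <;> simp only [star] <;>
  · repeat' first
      | exact hx _
      | exact hy _
      | apply PL.mul
      | apply PL.sub
      | apply PL.neg

theorem PL_det4 {a b x y : A → Fin 4 → ℤ}
    (ha : ∀ k, PL fun t => a t k) (hb : ∀ k, PL fun t => b t k)
    (hx : ∀ k, PL fun t => x t k) (hy : ∀ k, PL fun t => y t k) :
    PL fun t => det4 (a t) (b t) (x t) (y t) :=
  PL_form (PL_star ha hb) hx hy

theorem PL_dete {u v u' v' : A → Fin 4 → ℤ} {F : A → Fin 6 → ℤ}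
    (hu : ∀ k, PL fun t => u t k) (hv : ∀ k, PL fun t => v t k)
    (hu' : ∀ k, PL fun t => u' t k) (hv' : ∀ k, PL fun t => v' t k)
    (hF : ∀ k, PL fun t => F t k) :
    PL fun t => dete (u t) (v t) (u' t) (v' t) (F t) :=
  PL.sub (PL.mul (PL_form hF hu hu') (PL_form hF hv hv'))
    (PL.mul (PL_form hF hu hv') (PL_form hF hv hu'))

theorem PL_mixe {u v u' v' : A → Fin 4 → ℤ} {F G : A → Fin 6 → ℤ}
    (hu : ∀ k, PL fun t => u t k) (hv : ∀ k, PL fun t => v t k)
    (hu' : ∀ k, PL fun t => u' t k) (hv' : ∀ k, PL fun t => v' t k)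
    (hF : ∀ k, PL fun t => F t k) (hG : ∀ k, PL fun t => G t k) :
    PL fun t => mixe (u t) (v t) (u' t) (v' t) (F t) (G t) :=
  PL.sub (PL.sub (PL.add (PL.mul (PL_form hF hu hu') (PL_form hG hv hv'))
    (PL.mul (PL_form hG hu hu') (PL_form hF hv hv')))
    (PL.mul (PL_form hF hu hv') (PL_form hG hv hu')))
    (PL.mul (PL_form hG hu hv') (PL_form hF hv hu'))

theorem PL.sq {f : A → ℤ} (hf : PL f) : PL (fun x => f x ^ 2) := by
  have := hf.mul hf
  simpa [pow_two] using this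

theorem PL_qe {u v u' v' : A → Fin 4 → ℤ} {F G : A → Fin 6 → ℤ}
    (hu : ∀ k, PL fun t => u t k) (hv : ∀ k, PL fun t => v t k)
    (hu' : ∀ k, PL fun t => u' t k) (hv' : ∀ k, PL fun t => v' t k)
    (hF : ∀ k, PL fun t => F t k) (hG : ∀ k, PL fun t => G t k) :
    PL fun t => qe (u t) (v t) (u' t) (v' t) (F t) (G t) :=
  PL.sub (PL_mixe hu hv hu' hv' hF hG).sq
    (PL.mul (PL.mul (PL.const 4) (PL_dete hu hv hu' hv' hF)) (PL_dete hu hv hu' hv' hG))

theorem PL_q0 {F G : A → Fin 6 → ℤ}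
    (hF : ∀ k, PL fun t => F t k) (hG : ∀ k, PL fun t => G t k) :
    PL fun t => q0 (F t) (G t) :=
  PL.sub (PL_pfm hF hG).sq (PL.mul (PL.mul (PL.const 4) (PL_pf hF)) (PL_pf hG))

end

end Pool.Agent.Helper41.Levi
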