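import Mathlib

/-!
# Finite projective planes and their Levi graphs
-/

namespace Pool.Agent.Helper41.Levi

/-- The axioms of a projective plane with points `P`, lines `L` and incidence `I`:
two distinct points are on exactly one line, two distinct lines meet in exactly one point, and
there are four points no three of which are on a common line. -/
structure IsProjPlane {P L : Type*} (I : P → L → Prop) : Prop where
  line : ∀ p q : P, p ≠ q → ∃! l : L, I p l ∧ I q l
  point : ∀ l m : L, l ≠ m → ∃! p : P, I p l ∧ I p m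
  quad : ∃ q : Fin 4 → P, Function.Injective q ∧
    ∀ i j k : Fin 4, i ≠ j → j ≠ k → i ≠ k → ∀ l : L, ¬ (I (q i) l ∧ I (q j) l ∧ I (q k) l)

/-- The Levi graph (incidence graph) of an incidence relation. -/
def leviGraph {P L : Type*} (I : P → L → Prop) : SimpleGraph (P ⊕ L) where
  Adj x y := (∃ p l, x = .inl p ∧ y = .inr l ∧ I p l) ∨ (∃ p l, x = .inr l ∧ y = .inl p ∧ I p l)
  symm := ⟨by
    rintro x y (⟨p, l, hx, hy, h⟩ | ⟨p, l, hx, hy, h⟩)
    · exact Or.inr ⟨p, l, hy, hx, h⟩
    · exact Or.inl ⟨p, l, hy, hx, h⟩⟩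
  loopless := ⟨by
    rintro x (⟨p, l, hx, hy, -⟩ | ⟨p, l, hx, hy, -⟩)
    · rw [hx] at hy
      exact absurd hy (by simp)
    · rw [hx] at hy
      exact absurd hy (by simp)⟩

end Pool.Agent.Helper41.Levi
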