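import Pool.Agent.Helper41.Levi.Forms

/-!
# Configurations with at most three points on each line
-/

namespace Pool.Agent.Helper41.Levi

/-- Test positions for a triple: `0` at position `i`, two basis vectors elsewhere. -/
def tri (a b : Fin 4 → ℤ) (i : Fin 3) : Fin 3 → Fin 4 → ℤ :=
  ![![0, a, b], ![a, 0, b], ![a, b, 0]] i

theorem tri_self (a b : Fin 4 → ℤ) (i : Fin 3) : tri a b i i = 0 := by
  fin_cases i <;> rfl

theorem tri_det (i j : Fin 3) :
    det4 (tri ![1, 0, 0, 0] ![0, 1, 0, 0] i 1 - tri ![1, 0, 0, 0] ![0, 1, 0, 0] i 0)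
      (tri ![1, 0, 0, 0] ![0, 1, 0, 0] i 2 - tri ![1, 0, 0, 0] ![0, 1, 0, 0] i 0)
      (tri ![0, 0, 1, 0] ![0, 0, 0, 1] j 1 - tri ![0, 0, 1, 0] ![0, 0, 0, 1] j 0)
      (tri ![0, 0, 1, 0] ![0, 0, 0, 1] j 2 - tri ![0, 0, 1, 0] ![0, 0, 0, 1] j 0) ≠ 0 := by
  fin_cases i <;> fin_cases j <;> simp [tri, det4, form, star]

theorem exists_assign {Q : Type*} (s t : Fin 3 → Q) (hs : Function.Injective s)
    (ht : Function.Injective t) (i j : Fin 3) (hst : ∀ k l, s k = t l → k = i ∧ l = j)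
    (X Y : Fin 3 → Fin 4 → ℤ) (hX : X i = 0) (hY : Y j = 0) :
    ∃ w : Q → Fin 4 → ℤ, (∀ k, w (s k) = X k) ∧ ∀ k, w (t k) = Y k := by
  classical
  refine ⟨fun x => if h : ∃ k, s k = x then X h.choose else
    if h : ∃ k, t k = x then Y h.choose else 0, ?_, ?_⟩
  · intro k
    have h : ∃ k', s k' = s k := ⟨k, rfl⟩
    simp only [dif_pos h]
    rw [hs h.choose_spec]
  · intro k
    by_cases h : ∃ k', s k' = t k
    · simp only [dif_pos h]
      obtain ⟨h1, h2⟩ := hst _ _ h.choose_spec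
      rw [h1, h2, hX, hY]
    · have h' : ∃ k', t k' = t k := ⟨k, rfl⟩
      simp only [dif_neg h, dif_pos h']
      rw [ht h'.choose_spec]

theorem PL.point {Q : Type*} (x : Q) (k : Fin 4) : PL fun z : Q → Fin 4 → ℤ => z x k :=
  PL.hom ((Pi.evalAddMonoidHom (fun _ : Fin 4 => ℤ) k).comp
    (Pi.evalAddMonoidHom (fun _ : Q => Fin 4 → ℤ) x))

/-- Generic positions for a family of triples. -/
theorem exists_positions {Q : Type*} [Finite Q] {n : ℕ} (t : Fin n → Fin 3 → Q)
    (ht : ∀ i, Function.Injective (t i))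
    (hlin : ∀ i j, i ≠ j → ∃ a b, ∀ k l, t i k = t j l → k = a ∧ l = b) :
    ∃ z : Q → Fin 4 → ℤ, Function.Injective z ∧
      ∀ i j, i ≠ j → det4 (z (t i 1) - z (t i 0)) (z (t i 2) - z (t i 0))
        (z (t j 1) - z (t j 0)) (z (t j 2) - z (t j 0)) ≠ 0 := by
  classical
  let g : {x : Fin n × Fin n // x.1 ≠ x.2} ⊕ {x : Q × Q // x.1 ≠ x.2} →
      (Q → Fin 4 → ℤ) → ℤ := fun o z =>
    match o with
    | .inl x => det4 (z (t x.1.1 1) - z (t x.1.1 0)) (z (t x.1.1 2) - z (t x.1.1 0))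
        (z (t x.1.2 1) - z (t x.1.2 0)) (z (t x.1.2 2) - z (t x.1.2 0))
    | .inr x => z x.1.1 0 - z x.1.2 0
  have hPL : ∀ o, PL (g o) := by
    rintro (x | x)
    · exact PL_det4 (fun k => PL.sub (PL.point _ k) (PL.point _ k))
        (fun k => PL.sub (PL.point _ k) (PL.point _ k))
        (fun k => PL.sub (PL.point _ k) (PL.point _ k))
        (fun k => PL.sub (PL.point _ k) (PL.point _ k))
    · exact PL.sub (PL.point _ _) (PL.point _ _)
  have hne : ∀ o, ∃ z, g o z ≠ 0 := by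
    rintro (⟨⟨i, j⟩, hij⟩ | ⟨⟨x, y⟩, hxy⟩)
    · obtain ⟨a, b, hab⟩ := hlin i j hij
      obtain ⟨w, hw1, hw2⟩ := exists_assign (t i) (t j) (ht i) (ht j) a b hab
        (tri ![1, 0, 0, 0] ![0, 1, 0, 0] a) (tri ![0, 0, 1, 0] ![0, 0, 0, 1] b)
        (tri_self _ _ _) (tri_self _ _ _)
      refine ⟨w, ?_⟩
      show det4 (w (t i 1) - w (t i 0)) (w (t i 2) - w (t i 0)) (w (t j 1) - w (t j 0))
        (w (t j 2) - w (t j 0)) ≠ 0
      simp only [hw1, hw2]
      exact tri_det a b
    · refine ⟨fun q => if q = x then ![1, 0, 0, 0] else 0, ?_⟩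
      simp only at hxy
      show (if x = x then ![1, 0, 0, 0] else (0 : Fin 4 → ℤ)) 0
        - (if y = x then ![1, 0, 0, 0] else (0 : Fin 4 → ℤ)) 0 ≠ 0
      simp [Ne.symm hxy]
  obtain ⟨z, hz⟩ := PL.exists_common g hPL hne
  refine ⟨z, ?_, fun i j hij => hz (.inl ⟨(i, j), hij⟩)⟩
  intro x y hxy
  by_contra hne
  apply hz (.inr ⟨(x, y), hne⟩)
  show z x 0 - z y 0 = 0
  rw [hxy, sub_self]

/-- Enumeration of a set of at most three elements. -/
theorem exists_enum {P : Type*} (s : Set P) (hs : s.Finite) (h3 : s.ncard ≤ 3) :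
    ∃ e : Fin 3 → Option P, (∀ p ∈ s, ∃ i, e i = some p) ∧ (∀ i p, e i = some p → p ∈ s) ∧
      ∀ i j p, e i = some p → e j = some p → i = j := by
  classical
  have hfin : Finite s := hs
  have hcard : Nat.card s ≤ 3 := h3
  let ε := Finite.equivFin s
  refine ⟨fun i => if h : (i : ℕ) < Nat.card s then some (ε.symm ⟨i, h⟩ : s).1 else none,
    ?_, ?_, ?_⟩
  · intro p hp
    have hlt : (ε ⟨p, hp⟩ : ℕ) < Nat.card s := (ε ⟨p, hp⟩).2
    refine ⟨⟨(ε ⟨p, hp⟩ : ℕ), by omega⟩, ?_⟩
    simp only [dif_pos hlt, Fin.eta, Equiv.symm_apply_apply]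
  · intro i p h
    simp only at h
    split_ifs at h with h1
    simp only [Option.some.injEq] at h
    rw [← h]
    exact (ε.symm ⟨i, h1⟩).2
  · intro i j p hi hj
    simp only at hi hj
    split_ifs at hi hj with h1 h2
    simp only [Option.some.injEq] at hi hj
    have h3 : ε.symm ⟨i, h1⟩ = ε.symm ⟨j, h2⟩ := Subtype.ext (hi.trans hj.symm)
    have h4 := ε.symm.injective h3
    simp only [Fin.mk.injEq] at h4
    exact Fin.ext h4

/-- Every finite partial linear space with at most three points on each line embeds in a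
finite projective plane. -/
theorem embed_three {P L : Type*} [Finite P] [Finite L] (inc : P → L → Prop)
    (hlin : ∀ p q l m, p ≠ q → l ≠ m → inc p l → inc q l → inc p m → inc q m → False)
    (h3 : ∀ l, {p | inc p l}.ncard ≤ 3) :
    ∃ (P' L' : Type) (_ : Finite P') (_ : Finite L') (I : P' → L' → Prop), IsProjPlane I ∧
      ∃ (f : P → P') (g : L → L'), Function.Injective f ∧ Function.Injective g ∧
        ∀ p l, inc p l → I (f p) (g l) := by
  classical
  have henum : ∀ l, ∃ e : Fin 3 → Option P, (∀ p, inc p l → ∃ i, e i = some p) ∧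
      (∀ i p, e i = some p → inc p l) ∧ ∀ i j p, e i = some p → e j = some p → i = j := by
    intro l
    obtain ⟨e, h1, h2, h3⟩ := exists_enum {p | inc p l} (Set.toFinite _) (h3 l)
    exact ⟨e, h1, h2, h3⟩
  choose e he1 he2 he3 using henum
  let σ : L ≃ Fin (Nat.card L) := Finite.equivFin L
  -- lines are indexed by `Fin (card L + 2)`
  let E : Fin (Nat.card L + 2) → Fin 3 → Option P := fun i =>
    if h : (i : ℕ) < Nat.card L then e (σ.symm ⟨i, h⟩) else fun _ => none
  let t : Fin (Nat.card L + 2) → Fin 3 → P ⊕ (Fin (Nat.card L + 2) × Fin 3) := fun i k =>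
    match E i k with
    | some p => .inl p
    | none => .inr (i, k)
  have hEt : ∀ i k p, t i k = .inl p → E i k = some p := by
    intro i k p h
    rcases hE : E i k with _ | q
    · simp [t, hE] at h
    · simp [t, hE] at h
      rw [h]
  have hEt' : ∀ i k x, t i k = .inr x → x = (i, k) := by
    intro i k x h
    rcases hE : E i k with _ | q
    · simp [t, hE] at h
      exact h.symm
    · simp [t, hE] at h
  have hE2 : ∀ i k p, E i k = some p → ∃ h : (i : ℕ) < Nat.card L, inc p (σ.symm ⟨i, h⟩) ∧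
      e (σ.symm ⟨i, h⟩) k = some p := by
    intro i k p h
    by_cases hi : (i : ℕ) < Nat.card L
    · refine ⟨hi, ?_⟩
      simp only [E, dif_pos hi] at h
      exact ⟨he2 _ _ _ h, h⟩
    · simp only [E, dif_neg hi] at h
      exact absurd h (by simp)
  have htinj : ∀ i, Function.Injective (t i) := by
    intro i k l hkl
    rcases hx : t i k with p | x
    · have h1 := hEt i k p hx
      have h2 := hEt i l p (hkl ▸ hx)
      obtain ⟨hi, -, h3⟩ := hE2 _ _ _ h1
      obtain ⟨hi', -, h4⟩ := hE2 _ _ _ h2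
      exact he3 _ _ _ _ h3 h4
    · have h1 := hEt' i k x hx
      have h2 := hEt' i l x (hkl ▸ hx)
      rw [h1] at h2
      exact (Prod.ext_iff.1 h2).2
  have hshare : ∀ i j, i ≠ j → ∀ k l, t i k = t j l → ∃ p, E i k = some p ∧ E j l = some p := by
    intro i j hij k l h
    rcases hx : t i k with p | x
    · exact ⟨p, hEt i k p hx, hEt j l p (h ▸ hx)⟩
    · have h1 := hEt' i k x hx
      have h2 := hEt' j l x (h ▸ hx)
      rw [h1] at h2
      exact absurd (Prod.ext_iff.1 h2).1 hij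
  have hlin' : ∀ i j, i ≠ j → ∃ a b, ∀ k l, t i k = t j l → k = a ∧ l = b := by
    intro i j hij
    by_cases h : ∃ a b, t i a = t j b
    · obtain ⟨a, b, hab⟩ := h
      refine ⟨a, b, ?_⟩
      intro k l hkl
      obtain ⟨p, hp1, hp2⟩ := hshare i j hij a b hab
      obtain ⟨q, hq1, hq2⟩ := hshare i j hij k l hkl
      obtain ⟨hi, hpi, hpi'⟩ := hE2 _ _ _ hp1
      obtain ⟨hj, hpj, hpj'⟩ := hE2 _ _ _ hp2
      obtain ⟨_, hqi, hqi'⟩ := hE2 _ _ _ hq1
      obtain ⟨_, hqj, hqj'⟩ := hE2 _ _ _ hq2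
      by_cases hpq : p = q
      · subst hpq
        exact ⟨he3 _ _ _ _ hqi' hpi', he3 _ _ _ _ hqj' hpj'⟩
      · exfalso
        refine hlin p q _ _ hpq ?_ hpi hqi hpj hqj
        intro heq
        have := σ.symm.injective heq
        simp only [Fin.mk.injEq] at this
        exact hij (Fin.ext this)
    · push Not at h
      exact ⟨0, 0, fun k l hkl => absurd hkl (h k l)⟩
  obtain ⟨z, hz, hdet⟩ := exists_positions t htinj hlin'
  obtain ⟨P', L', hP', hL', I, hI, f, g, hf, hg, hfg⟩ := embed_of_realization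
    (fun x i => ∃ k, x = t i k) z hz (fun i => z (t i 0))
    (fun i => z (t i 1) - z (t i 0)) (fun i => z (t i 2) - z (t i 0)) hdet
    (by
      rintro x i ⟨k, rfl⟩
      fin_cases k
      · exact ⟨0, 0, fun m => by simp⟩
      · exact ⟨1, 0, fun m => by simp⟩
      · exact ⟨0, 1, fun m => by simp⟩)
  refine ⟨P', L', hP', hL', I, hI, fun p => f (.inl p),
    fun l => g ⟨(σ l : ℕ), by have := (σ l).2; omega⟩, ?_, ?_, ?_⟩
  · intro p q h
    exact Sum.inl_injective (hf h)
  · intro l m h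
    have h1 := hg h
    simp only [Fin.mk.injEq] at h1
    exact σ.injective (Fin.ext h1)
  · intro p l hpl
    apply hfg
    obtain ⟨k, hk⟩ := he1 l p hpl
    refine ⟨k, ?_⟩
    have h1 : E ⟨(σ l : ℕ), by have := (σ l).2; omega⟩ k = some p := by
      simp only [E, Fin.is_lt, dif_pos, Fin.eta, Equiv.symm_apply_apply]
      exact hk
    simp only [t, h1]

end Pool.Agent.Helper41.Levi
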